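import Pool.Agent.H67.Pl.Basic

/-!
# The averages over squares of the pair functions
-/

open MeasureTheory Set
open scoped ComplexConjugate

namespace Pool.Agent.H42.Pl

open Pool.Agent.H67.Pl

theorem Fp_le {R : ℝ} {f : ℂ → ℂ} (hf : Bd R f) (α p : ℂ) : ‖Fp f α p‖ ≤ 1 := by
  unfold Fp
  rw [norm_mul, RCLike.norm_conj]
  exact mul_le_one₀ (hf.le_one _) (norm_nonneg _) (hf.le_one _)

theorem Fp_supp {R : ℝ} {f : ℂ → ℂ} (hf : Bd R f) (α p : ℂ) (hp : R < ‖p‖) : Fp f α p = 0 := by
  unfold Fp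
  rw [hf.supp p hp, zero_mul]

theorem Fp_meas {R : ℝ} {f : ℂ → ℂ} (hf : Bd R f) :
    Measurable (fun z : ℂ × ℂ => Fp f z.1 z.2) := by
  unfold Fp
  apply (hf.meas.comp measurable_snd).mul
  exact Complex.continuous_conj.measurable.comp
    (hf.meas.comp (measurable_snd.add measurable_fst))

theorem sq_set_meas (w : ℝ) : MeasurableSet (sq 0 w) := by
  unfold Pool.Agent.H67.Pl.sq
  have h1 := Complex.measurable_re
  have h2 := Complex.measurable_im
  exact (measurableSet_le measurable_const h1).inter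
    ((measurableSet_lt h1 measurable_const).inter
      ((measurableSet_le measurable_const h2).inter (measurableSet_lt h2 measurable_const)))

theorem sq_set_vol (w : ℝ) (hw : 0 < w) : volume.real (sq 0 w) = w ^ 2 := by
  have h : sq 0 w = Complex.measurableEquivRealProd ⁻¹'
      (Ico (0:ℝ) (0 + w) ×ˢ Ico (0:ℝ) (0 + w)) := by
    ext z
    simp [Pool.Agent.H67.Pl.sq, Complex.measurableEquivRealProd_apply, and_assoc]
  rw [measureReal_def, h, Complex.volume_preserving_equiv_real_prod.measure_preimage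
    ((measurableSet_Ico.prod measurableSet_Ico).nullMeasurableSet), Measure.volume_eq_prod,
    Measure.prod_prod, Real.volume_Ico, ← ENNReal.ofReal_mul (by linarith),
    ENNReal.toReal_ofReal (by nlinarith)]
  ring

theorem sqm_fin (w : ℝ) (hw : 0 < w) : volume (sq 0 w) < ⊤ := by
  by_contra h
  rw [not_lt, top_le_iff] at h
  have h1 := sq_set_vol w hw
  rw [measureReal_def, h] at h1
  rw [ENNReal.toReal_top] at h1
  have : 0 < w ^ 2 := by positivity
  linarith

theorem sq_set_norm (w : ℝ) (y : ℂ) (hy : y ∈ sq 0 w) : ‖y‖ ≤ 2 * w := by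
  obtain ⟨k1, k2, k3, k4⟩ := hy
  simp only [Complex.zero_re, Complex.zero_im, zero_add] at k1 k2 k3 k4
  calc ‖y‖ ≤ |y.re| + |y.im| := Complex.norm_le_abs_re_add_abs_im y
    _ ≤ w + w := by
      rw [abs_of_nonneg k1, abs_of_nonneg k3]
      linarith
    _ = 2 * w := by ring

theorem sq_meas {R : ℝ} (w : ℝ) {f : ℂ → ℂ} (hf : Bd R f) :
    Measurable (fun z : ℂ × ℂ => Sq w (Fp f z.1) z.2) := by
  unfold Sq
  apply Measurable.const_mul
  have hm : StronglyMeasurable fun q : (ℂ × ℂ) × ℂ => Fp f q.1.1 (q.1.2 + q.2) := by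
    refine Measurable.stronglyMeasurable ?_
    exact (Fp_meas hf).comp (measurable_fst.fst.prodMk (measurable_fst.snd.add measurable_snd))
  exact (hm.integral_prod_right' (ν := volume.restrict (sq 0 w))).measurable

theorem sq_le (w : ℝ) (hw : 0 < w) {F : ℂ → ℂ} (hF : ∀ x, ‖F x‖ ≤ 1) (p : ℂ) :
    ‖Sq w F p‖ ≤ 1 := by
  unfold Sq
  rw [norm_mul, Complex.norm_real, Real.norm_of_nonneg (by positivity)]
  have h := norm_setIntegral_le_of_norm_le_const (μ := volume) (s := sq 0 w)
    (f := fun y => F (p + y)) (C := 1) (sqm_fin w hw) (fun y _ => hF _)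
  rw [sq_set_vol w hw, one_mul] at h
  calc 1 / w ^ 2 * _ ≤ 1 / w ^ 2 * w ^ 2 := mul_le_mul_of_nonneg_left h (by positivity)
    _ = 1 := by field_simp

theorem sq_supp (w : ℝ) {R : ℝ} {F : ℂ → ℂ} (hF : ∀ x, R < ‖x‖ → F x = 0) (p : ℂ)
    (hp : R + 2 * w < ‖p‖) : Sq w F p = 0 := by
  unfold Sq
  rw [setIntegral_eq_zero_of_forall_eq_zero, mul_zero]
  intro y hy
  apply hF
  have h1 := sq_set_norm w y hy
  have h2 : ‖p‖ ≤ ‖p + y‖ + ‖y‖ := by
    calc ‖p‖ = ‖(p + y) - y‖ := by rw [add_sub_cancel_right]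
      _ ≤ _ := norm_sub_le _ _
  linarith

/-- Integrability in `p`. -/
theorem sqm_int {R : ℝ} (w : ℝ) (hw : 0 < w) {f : ℂ → ℂ} (hf : Bd R f) (α : ℂ) (n : ℕ)
    (hn : n ≠ 0) :
    Integrable (fun p : ℂ => ‖Sq w (Fp f α) p‖ ^ n) ∧
      ∫ p : ℂ, ‖Sq w (Fp f α) p‖ ^ n ≤ volume.real (Metric.closedBall (0 : ℂ) (R + 2 * w)) := by
  have hm : Measurable fun p : ℂ => ‖Sq w (Fp f α) p‖ ^ n :=
    (((sq_meas w hf).comp (measurable_const.prodMk measurable_id)).norm).pow_const n
  have hb : Integrable ((Metric.closedBall (0:ℂ) (R + 2 * w)).indicator (fun _ => (1:ℝ)))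
      (volume : Measure ℂ) := by
    rw [integrable_indicator_iff Metric.isClosed_closedBall.measurableSet]
    exact integrableOn_const (by
      exact (isCompact_closedBall (0:ℂ) (R + 2 * w)).measure_lt_top.ne)
  have hle : ∀ p, ‖Sq w (Fp f α) p‖ ^ n
      ≤ (Metric.closedBall (0:ℂ) (R + 2 * w)).indicator (fun _ => (1:ℝ)) p := by
    intro p
    by_cases hp : p ∈ Metric.closedBall (0:ℂ) (R + 2 * w)
    · rw [Set.indicator_of_mem hp]
      exact pow_le_one₀ (norm_nonneg _) (sq_le w hw (Fp_le hf α) p)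
    · rw [Set.indicator_of_notMem hp]
      have hp' : R + 2 * w < ‖p‖ := by simpa using hp
      rw [sq_supp w (Fp_supp hf α) p hp', norm_zero, zero_pow hn]
  constructor
  · refine hb.mono' hm.aestronglyMeasurable (Filter.Eventually.of_forall fun p => ?_)
    rw [Real.norm_of_nonneg (by positivity)]
    exact hle p
  · calc _ ≤ ∫ p, (Metric.closedBall (0:ℂ) (R + 2 * w)).indicator (fun _ => (1:ℝ)) p :=
          integral_mono_of_nonneg (Filter.Eventually.of_forall fun p => by positivity) hb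
            (Filter.Eventually.of_forall hle)
      _ = _ := by
        rw [integral_indicator Metric.isClosed_closedBall.measurableSet]
        simp

theorem sqm_meas_int {R : ℝ} (w : ℝ) {f : ℂ → ℂ} (hf : Bd R f) (n : ℕ) :
    Measurable fun α : ℂ => ∫ p : ℂ, ‖Sq w (Fp f α) p‖ ^ n := by
  have hm : StronglyMeasurable fun q : ℂ × ℂ => ‖Sq w (Fp f q.1) q.2‖ ^ n :=
    (((sq_meas w hf).norm).pow_const n).stronglyMeasurable
  exact (hm.integral_prod_right' (ν := volume)).measurable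

/-- Integrability in `α`. -/
theorem sqm_intOn {R : ℝ} (w : ℝ) (hw : 0 < w) {f : ℂ → ℂ} (hf : Bd R f) (a : ℝ) (n : ℕ)
    (hn : n ≠ 0) :
    IntegrableOn (fun α : ℂ => ∫ p : ℂ, ‖Sq w (Fp f α) p‖ ^ n) (Metric.ball (0 : ℂ) a) := by
  refine Integrable.mono' (g := fun _ => volume.real (Metric.closedBall (0 : ℂ) (R + 2 * w)))
    (integrableOn_const (by exact measure_ball_lt_top.ne))
    (sqm_meas_int w hf n).aestronglyMeasurable (Filter.Eventually.of_forall fun α => ?_)
  rw [Real.norm_of_nonneg (integral_nonneg fun p => by positivity)]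
  exact (sqm_int w hw hf α n hn).2

theorem sq_mono {R : ℝ} (w : ℝ) (hw : 0 < w) {f : ℂ → ℂ} (hf : Bd R f) (a b : ℝ) (hab : a ≤ b) :
    ∫ α in Metric.ball (0 : ℂ) a, ∫ p : ℂ, ‖Sq w (Fp f α) p‖ ^ 2 ≤
      ∫ α in Metric.ball (0 : ℂ) b, ∫ p : ℂ, ‖Sq w (Fp f α) p‖ ^ 2 :=
  setIntegral_mono_set (sqm_intOn w hw hf b 2 (by norm_num))
    (Filter.Eventually.of_forall fun α => integral_nonneg fun p => by positivity)
    (Filter.Eventually.of_forall (Metric.ball_subset_ball hab))

theorem sq_cs {R : ℝ} (w : ℝ) (hw : 0 < w) {f : ℂ → ℂ} (hf : Bd R f) (a b lam : ℝ) (ha : 0 < a)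
    (hb : R + 2 * w < b) (hb0 : 0 < b) (hlam : 0 < lam) :
    ∫ α in Metric.ball (0 : ℂ) a, ∫ p : ℂ, ‖Sq w (Fp f α) p‖ ≤
      lam * ((Real.pi * a ^ 2) * (Real.pi * b ^ 2)) +
        (1 / lam) * ∫ α in Metric.ball (0 : ℂ) a, ∫ p : ℂ, ‖Sq w (Fp f α) p‖ ^ 2 := by
  have hvol : ∀ r : ℝ, 0 < r → volume.real (Metric.ball (0:ℂ) r) = Real.pi * r ^ 2 := by
    intro r hr
    rw [measureReal_def, Complex.volume_ball, ENNReal.toReal_mul, ENNReal.toReal_pow,
      ENNReal.toReal_ofReal hr.le]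
    simp
    ring
  have hp : ∀ α : ℂ, ∫ p : ℂ, ‖Sq w (Fp f α) p‖
      ≤ lam * (Real.pi * b ^ 2) + (1 / lam) * ∫ p : ℂ, ‖Sq w (Fp f α) p‖ ^ 2 := by
    intro α
    have hI2 := (sqm_int w hw hf α 2 (by norm_num)).1
    have hIb : Integrable ((Metric.ball (0:ℂ) b).indicator (fun _ => lam))
        (volume : Measure ℂ) := by
      rw [integrable_indicator_iff Metric.isOpen_ball.measurableSet]
      exact integrableOn_const (by exact measure_ball_lt_top.ne)
    have hsum : Integrable (fun p : ℂ => (Metric.ball (0:ℂ) b).indicator (fun _ => lam) p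
        + (1 / lam) * ‖Sq w (Fp f α) p‖ ^ 2) := hIb.add (hI2.const_mul _)
    calc ∫ p : ℂ, ‖Sq w (Fp f α) p‖ ≤ ∫ p : ℂ, ((Metric.ball (0:ℂ) b).indicator (fun _ => lam) p
          + (1 / lam) * ‖Sq w (Fp f α) p‖ ^ 2) := by
          refine integral_mono_of_nonneg (Filter.Eventually.of_forall fun p => norm_nonneg _) hsum
            (Filter.Eventually.of_forall fun p => ?_)
          simp only
          by_cases hpb : p ∈ Metric.ball (0:ℂ) b
          · rw [Set.indicator_of_mem hpb]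
            have h1 : ‖Sq w (Fp f α) p‖ * lam ≤ lam ^ 2 + ‖Sq w (Fp f α) p‖ ^ 2 := by
              nlinarith [sq_nonneg (‖Sq w (Fp f α) p‖ - lam), norm_nonneg (Sq w (Fp f α) p),
                sq_nonneg (‖Sq w (Fp f α) p‖), sq_nonneg lam]
            have h2 : ‖Sq w (Fp f α) p‖ = ‖Sq w (Fp f α) p‖ * lam / lam := by field_simp
            rw [h2]
            calc ‖Sq w (Fp f α) p‖ * lam / lam ≤ (lam ^ 2 + ‖Sq w (Fp f α) p‖ ^ 2) / lam :=
                  div_le_div_of_nonneg_right h1 hlam.le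
              _ = _ := by
                rw [← h2]
                field_simp
          · have hp' : R + 2 * w < ‖p‖ := by
              have : b ≤ ‖p‖ := by simpa using hpb
              linarith
            rw [sq_supp w (Fp_supp hf α) p hp', norm_zero, Set.indicator_of_notMem hpb]
            simp
      _ = _ := by
          rw [integral_add hIb (hI2.const_mul _), integral_const_mul,
            integral_indicator Metric.isOpen_ball.measurableSet]
          congr 1
          rw [setIntegral_const, hvol b hb0, smul_eq_mul, mul_comm]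
  have hI1 := sqm_intOn w hw hf a 1 (by norm_num)
  simp only [pow_one] at hI1
  have hI2 := sqm_intOn w hw hf a 2 (by norm_num)
  have hc : IntegrableOn (fun _ : ℂ => lam * (Real.pi * b ^ 2)) (Metric.ball (0:ℂ) a) :=
    integrableOn_const (by exact measure_ball_lt_top.ne)
  calc ∫ α in Metric.ball (0 : ℂ) a, ∫ p : ℂ, ‖Sq w (Fp f α) p‖
      ≤ ∫ α in Metric.ball (0 : ℂ) a, (lam * (Real.pi * b ^ 2)
          + (1 / lam) * ∫ p : ℂ, ‖Sq w (Fp f α) p‖ ^ 2) :=
        setIntegral_mono hI1 (hc.add (hI2.const_mul _)) hp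
    _ = _ := by
        rw [integral_add hc (hI2.const_mul _), integral_const_mul (1 / lam), setIntegral_const,
          hvol a ha, smul_eq_mul]
        ring

end Pool.Agent.H42.Pl
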