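import Pool.Agent.H42.Pl.Op
import Pool.Agent.H42.Pl.SqM

/-!
# The operators `AA` applied to averages
-/

open MeasureTheory Set
open scoped ComplexConjugate

namespace Pool.Agent.H42.Pl

open Pool.Agent.H67.Pl

theorem meas_NNτ (σ : ℂ) (m : ℝ) (α : ℂ) (s : ℝ) :
    Measurable (fun τ : ℝ => ((NN σ m ‖α‖ τ s : ℝ) : ℂ)) := by
  have h1 : Measurable fun τ : ℝ => ((((‖α‖, τ) : ℝ × ℝ), s) : (ℝ × ℝ) × ℝ) :=
    (measurable_const.prodMk measurable_id).prodMk measurable_const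
  have h2 := (measurable_NN σ m).comp h1
  exact Complex.measurable_ofReal.comp h2

theorem meas_zzτ (σ : ℂ) (α : ℂ) (s : ℝ) : Measurable (fun τ : ℝ => zz σ τ s * α) := by
  have h1 : Measurable fun τ : ℝ => ((τ, s) : ℝ × ℝ) := measurable_id.prodMk measurable_const
  have h2 := (measurable_zz σ).comp h1
  exact h2.mul_const α

theorem AA_joint (σ : ℂ) (m : ℝ) (α : ℂ) (s : ℝ) {F : ℂ → ℂ} (hF : Measurable F) :
    Measurable (fun w : ℂ × ℝ => ((NN σ m ‖α‖ w.2 s : ℝ) : ℂ) * F (w.1 + zz σ w.2 s * α)) := by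
  have h1 : Measurable fun w : ℂ × ℝ => ((NN σ m ‖α‖ w.2 s : ℝ) : ℂ) :=
    (meas_NNτ σ m α s).comp measurable_snd
  have h2 : Measurable fun w : ℂ × ℝ => zz σ w.2 s * α := (meas_zzτ σ α s).comp measurable_snd
  exact h1.mul (hF.comp (measurable_fst.add h2))

theorem AA_meas1 (σ : ℂ) (m t₁ ℓ : ℝ) (α : ℂ) (s : ℝ) {F : ℂ → ℂ} (hF : Measurable F) :
    Measurable (AA σ m t₁ ℓ α s F) := by
  have h1 := (AA_joint σ m α s hF).stronglyMeasurable
  have h3 : ∀ S : Set ℝ, Measurable fun p : ℂ => ∫ τ in S,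
      ((NN σ m ‖α‖ τ s : ℝ) : ℂ) * F (p + zz σ τ s * α) := fun S =>
    (StronglyMeasurable.integral_prod_right' (ν := volume.restrict S) h1).measurable
  exact (h3 (Ioc t₁ (t₁ + ℓ))).sub (h3 (Ioc (t₁ + ℓ) t₁))

theorem AA_l1 {σ : ℂ} {Q m t₁ ℓ s : ℝ} (P : Par σ Q) (hm : 0 < m) (hs : Sep Q t₁ ℓ s) (α : ℂ)
    {G : ℂ → ℂ} (hG : Measurable G) (hI : Integrable G) :
    Integrable (AA σ m t₁ ℓ α s G) ∧
      ∫ p : ℂ, ‖AA σ m t₁ ℓ α s G p‖ ≤ Q ^ 4 / m ^ 4 * ∫ p : ℂ, ‖G p‖ := by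
  have h0 := P.pos
  set β := Q ^ 4 / m ^ 4 with hβ
  have hβ0 : 0 < β := by positivity
  have hle : t₁ ≤ t₁ + ℓ := by linarith [hs.hℓ]
  have hms := AA_meas1 σ m t₁ ℓ α s hG
  -- the pointwise bound
  have h1 : ∀ p, ‖AA σ m t₁ ℓ α s G p‖ₑ ≤ ∫⁻ τ in Ioc t₁ (t₁ + ℓ),
      ENNReal.ofReal β * ‖G (p + zz σ τ s * α)‖ₑ := by
    intro p
    unfold AA
    rw [intervalIntegral.integral_of_le hle]
    refine (enorm_integral_le_lintegral_enorm _).trans ?_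
    apply setLIntegral_mono' measurableSet_Ioc
    intro τ hτ
    rw [enorm_mul]
    apply mul_le_mul' _ le_rfl
    rw [← ofReal_norm, Complex.norm_real, Real.norm_of_nonneg (P.NN_nonneg hm _ _ _)]
    exact ENNReal.ofReal_le_ofReal
      (P.NN_le hm (norm_nonneg _) (hs.abs_sub (Ioc_subset_Icc_self hτ)))
  have hm2 : Measurable (fun w : ℂ × ℝ => ENNReal.ofReal β * ‖G (w.1 + zz σ w.2 s * α)‖ₑ) := by
    have h2 : Measurable fun w : ℂ × ℝ => zz σ w.2 s * α := (meas_zzτ σ α s).comp measurable_snd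
    exact (hG.comp (measurable_fst.add h2)).enorm.const_mul _
  have h2 : ∫⁻ p, ‖AA σ m t₁ ℓ α s G p‖ₑ ≤ ENNReal.ofReal β * ∫⁻ p, ‖G p‖ₑ := by
    calc ∫⁻ p, ‖AA σ m t₁ ℓ α s G p‖ₑ ≤ ∫⁻ p, ∫⁻ τ in Ioc t₁ (t₁ + ℓ),
          ENNReal.ofReal β * ‖G (p + zz σ τ s * α)‖ₑ := lintegral_mono h1
      _ = ∫⁻ τ in Ioc t₁ (t₁ + ℓ), ∫⁻ p, ENNReal.ofReal β * ‖G (p + zz σ τ s * α)‖ₑ :=
          lintegral_lintegral_swap hm2.aemeasurable
      _ = ∫⁻ _τ in Ioc t₁ (t₁ + ℓ), ENNReal.ofReal β * ∫⁻ p, ‖G p‖ₑ := by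
          congr 1
          funext τ
          have hg : Measurable (fun p => ‖G (p + zz σ τ s * α)‖ₑ) :=
            (hG.comp (measurable_id.add_const (zz σ τ s * α))).enorm
          rw [lintegral_const_mul _ hg]
          congr 1
          exact lintegral_add_right_eq_self (fun p => ‖G p‖ₑ) _
      _ = (ENNReal.ofReal β * ∫⁻ p, ‖G p‖ₑ) * volume (Ioc t₁ (t₁ + ℓ)) := by
          rw [setLIntegral_const]
      _ ≤ (ENNReal.ofReal β * ∫⁻ p, ‖G p‖ₑ) * 1 := by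
          apply mul_le_mul' le_rfl
          rw [Real.volume_Ioc, add_sub_cancel_left]
          exact ENNReal.ofReal_le_one.2 hs.hℓ1
      _ = _ := mul_one _
  have hGfin : ∫⁻ p, ‖G p‖ₑ < ⊤ := hI.hasFiniteIntegral
  have hfin : ENNReal.ofReal β * ∫⁻ p, ‖G p‖ₑ < ⊤ := ENNReal.mul_lt_top ENNReal.ofReal_lt_top hGfin
  refine ⟨⟨hms.aestronglyMeasurable, lt_of_le_of_lt h2 hfin⟩, ?_⟩
  rw [integral_norm_eq_lintegral_enorm hms.aestronglyMeasurable,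
    integral_norm_eq_lintegral_enorm hG.aestronglyMeasurable]
  have h3 := ENNReal.toReal_mono hfin.ne h2
  rwa [ENNReal.toReal_mul, ENNReal.toReal_ofReal hβ0.le] at h3

theorem AA_sq {σ : ℂ} {Q m t₁ ℓ s : ℝ} (P : Par σ Q) (hm : 0 < m) (hs : Sep Q t₁ ℓ s) (α : ℂ)
    {F : ℂ → ℂ} (hF : Measurable F) (hF1 : ∀ x, ‖F x‖ ≤ 1) {w : ℝ} (hw : 0 < w) (p : ℂ) :
    AA σ m t₁ ℓ α s (Sq w F) p =
      ((1 / w ^ 2 : ℝ) : ℂ) * ∫ y in sq 0 w, AA σ m t₁ ℓ α s F (p + y) := by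
  have h0 := P.pos
  set β := Q ^ 4 / m ^ 4 with hβ
  have hβ0 : 0 < β := by positivity
  have hle : t₁ ≤ t₁ + ℓ := by linarith [hs.hℓ]
  -- the integrand
  set K : ℝ × ℂ → ℂ := fun w => ((NN σ m ‖α‖ w.1 s : ℝ) : ℂ) * F (p + w.2 + zz σ w.1 s * α)
    with hK
  have hKm : Measurable K := by
    have h1 : Measurable fun w : ℝ × ℂ => ((NN σ m ‖α‖ w.1 s : ℝ) : ℂ) :=
      (meas_NNτ σ m α s).comp measurable_fst
    have h2 : Measurable fun w : ℝ × ℂ => zz σ w.1 s * α := (meas_zzτ σ α s).comp measurable_fst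
    exact h1.mul (hF.comp ((measurable_snd.const_add p).add h2))
  have hfin := sqm_fin w hw
  have hi : Integrable K ((volume.restrict (Ioc t₁ (t₁ + ℓ))).prod
      (volume.restrict (sq 0 w))) := by
    rw [Measure.prod_restrict]
    have hf2 : (volume.prod volume) (Ioc t₁ (t₁ + ℓ) ×ˢ (sq 0 w)) ≠ ⊤ := by
      rw [Measure.prod_prod]
      exact (ENNReal.mul_lt_top (by rw [Real.volume_Ioc]; exact ENNReal.ofReal_lt_top) hfin).ne
    refine Measure.integrableOn_of_bounded (M := β) hf2 hKm.aestronglyMeasurable ?_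
    refine (ae_restrict_iff' (measurableSet_Ioc.prod (sq_set_meas w))).2
      (Filter.Eventually.of_forall fun z hz => ?_)
    rw [hK]
    simp only
    rw [norm_mul, Complex.norm_real, Real.norm_of_nonneg (P.NN_nonneg hm _ _ _)]
    calc _ ≤ β * 1 := mul_le_mul (P.NN_le hm (norm_nonneg _)
          (hs.abs_sub (Ioc_subset_Icc_self hz.1))) (hF1 _) (norm_nonneg _) hβ0.le
      _ = β := mul_one _
  have hsw : ∫ τ in Ioc t₁ (t₁ + ℓ), ∫ y in sq 0 w, K (τ, y) =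
      ∫ y in sq 0 w, ∫ τ in Ioc t₁ (t₁ + ℓ), K (τ, y) :=
    integral_integral_swap (f := fun τ y => K (τ, y)) hi
  have e1 : AA σ m t₁ ℓ α s (Sq w F) p = ((1 / w ^ 2 : ℝ) : ℂ) *
      ∫ τ in Ioc t₁ (t₁ + ℓ), ∫ y in sq 0 w, K (τ, y) := by
    unfold AA Sq
    rw [intervalIntegral.integral_of_le hle, ← integral_const_mul]
    congr 1
    funext τ
    rw [mul_left_comm, ← integral_const_mul]
    congr 1
    congr 1
    funext y
    rw [hK]
    simp only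
    congr 2
    ring
  have e2 : ∫ y in sq 0 w, AA σ m t₁ ℓ α s F (p + y) =
      ∫ y in sq 0 w, ∫ τ in Ioc t₁ (t₁ + ℓ), K (τ, y) := by
    congr 1
    funext y
    unfold AA
    rw [intervalIntegral.integral_of_le hle]
  rw [e1, e2, hsw]

end Pool.Agent.H42.Pl
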