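import Pool.Agent.H67.Pl.Basic

/-!
# The substitution `α = a d`
-/

open MeasureTheory
open scoped ComplexConjugate

namespace Pool.Agent.H42.Pl

open Pool.Agent.H67.Pl

theorem integral_comp_cmul (a : ℂ) (ha : a ≠ 0) (F : ℂ → ℂ) :
    ∫ d : ℂ, F (a * d) = ((‖a‖ ^ 2)⁻¹ : ℝ) * ∫ x : ℂ, F x := by
  have hn : (‖a‖ : ℂ) ≠ 0 := by simpa using ha
  obtain ⟨u, hu⟩ : ∃ u : Circle, (u : ℂ) = a / ‖a‖ := by
    refine ⟨⟨a / ‖a‖, ?_⟩, rfl⟩
    change a / ‖a‖ ∈ Metric.sphere (0 : ℂ) 1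
    simp [ha]
  have e1 : ∀ d, a * d = ‖a‖ • (rotation u d) := by
    intro d
    rw [rotation_apply, Complex.real_smul]
    rw [hu]
    field_simp
  simp_rw [e1]
  have hmp : MeasurePreserving (rotation u) (volume : Measure ℂ) volume :=
    (rotation u).measurePreserving
  have e2 := hmp.integral_comp (rotation u).toHomeomorph.measurableEmbedding
    (fun y => F (‖a‖ • y))
  rw [e2, Measure.integral_comp_smul, Complex.finrank_real_complex]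
  rw [abs_of_nonneg (by positivity), Complex.real_smul]

/-- the displacement -/
noncomputable def zz (σ : ℂ) (τ s : ℝ) : ℂ := (τ * s * σ - 1 / σ) / ((τ : ℂ) - s)

/-- the direction -/
noncomputable def cc (σ : ℂ) (s : ℝ) : ℂ := s ^ 2 * σ - 1 / σ

theorem zz_eq (σ : ℂ) {τ s : ℝ} (h : τ ≠ s) :
    zz σ τ s = s * σ + ((1 / (τ - s) : ℝ) : ℂ) * cc σ s := by
  have h1 : (τ : ℂ) - s ≠ 0 := by
    rw [sub_ne_zero]; exact_mod_cast h
  unfold zz cc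
  push_cast
  field_simp
  ring

/-- the weight -/
noncomputable def NN (σ : ℂ) (m r τ s : ℝ) : ℝ :=
  1 / ((τ - s) ^ 2 * ‖σ‖ ^ 2) *
    (max 0 (m - r * (‖1 + s * σ‖ * (1 + |τ|) / (|τ - s| * ‖σ‖))) / m ^ 3) *
    (max 0 (m - r * (‖1 + τ * σ‖ * (1 + |s|) / (|τ - s| * ‖σ‖))) / m ^ 3)

theorem one_add_ne {σ : ℂ} (him : σ.im ≠ 0) (τ : ℝ) : (1 : ℂ) + τ * σ ≠ 0 := by
  intro h
  have h1 := congrArg Complex.im h
  have h2 := congrArg Complex.re h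
  simp at h1 h2
  rcases h1 with h1 | h1
  · rw [h1] at h2; simp at h2
  · exact him h1

theorem inner_sub (σ : ℂ) (him : σ.im ≠ 0) (f : ℂ → ℂ) {τ s : ℝ} (h : τ ≠ s) (d : ℂ) :
    ∫ x : ℂ, conj (f (x + gk σ τ * d)) * conj (f (x + (1 - gk σ τ) * d)) *
        f (x + gk σ s * d) * f (x + (1 - gk σ s) * d) =
      ∫ p : ℂ, conj (Fp f ((gk σ s - gk σ τ) * d) p) *
        Fp f ((gk σ s - gk σ τ) * d) (p + zz σ τ s * ((gk σ s - gk σ τ) * d)) := by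
  have hτ := one_add_ne him τ
  have hs := one_add_ne him s
  have hτ2 : (1 : ℂ) + σ * τ ≠ 0 := by rwa [mul_comm σ]
  have hs2 : (1 : ℂ) + σ * s ≠ 0 := by rwa [mul_comm σ]
  have h0 : σ ≠ 0 := by rintro rfl; simp at him
  have h1 : (τ : ℂ) - s ≠ 0 := by
    rw [sub_ne_zero]; exact_mod_cast h
  have hz : zz σ τ s * ((gk σ s - gk σ τ) * d) = (1 - gk σ τ - gk σ s) * d := by
    unfold zz gk
    field_simp
    ring
  rw [← integral_add_right_eq_self (μ := volume)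
    (fun p => conj (Fp f ((gk σ s - gk σ τ) * d) p) *
        Fp f ((gk σ s - gk σ τ) * d) (p + zz σ τ s * ((gk σ s - gk σ τ) * d))) (gk σ τ * d)]
  refine integral_congr_ae (Filter.Eventually.of_forall fun x => ?_)
  simp only [hz]
  unfold Fp
  simp only [map_mul, Complex.conj_conj]
  have e1 : x + gk σ τ * d + (gk σ s - gk σ τ) * d = x + gk σ s * d := by ring
  have e2 : x + gk σ τ * d + (1 - gk σ τ - gk σ s) * d = x + (1 - gk σ s) * d := by ring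
  have e3 : x + (1 - gk σ s) * d + (gk σ s - gk σ τ) * d = x + (1 - gk σ τ) * d := by ring
  rw [e1, e2, e3]
  ring

theorem nu_mul (σ : ℂ) (him : σ.im ≠ 0) (m : ℝ) {τ s : ℝ} (h : τ ≠ s) (d : ℂ) :
    nu σ m d τ * nu σ m d s =
      ‖gk σ s - gk σ τ‖ ^ 2 * NN σ m ‖(gk σ s - gk σ τ) * d‖ τ s := by
  have hτ := one_add_ne him τ
  have hs := one_add_ne him s
  have hτ2 : (1 : ℂ) + σ * τ ≠ 0 := by rwa [mul_comm σ]
  have hs2 : (1 : ℂ) + σ * s ≠ 0 := by rwa [mul_comm σ]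
  have h0 : σ ≠ 0 := by rintro rfl; simp at him
  have h1 : (τ : ℂ) - s ≠ 0 := by
    rw [sub_ne_zero]; exact_mod_cast h
  have ea : gk σ s - gk σ τ = ((τ : ℂ) - s) * σ / ((1 + τ * σ) * (1 + s * σ)) := by
    unfold gk
    field_simp
    ring
  have na : ‖gk σ s - gk σ τ‖ = |τ - s| * ‖σ‖ / (‖1 + τ * σ‖ * ‖1 + s * σ‖) := by
    rw [ea, norm_div, norm_mul, norm_mul, ← Complex.ofReal_sub, Complex.norm_real,
      Real.norm_eq_abs]
  have ng : ‖gk σ τ‖ = 1 / ‖1 + τ * σ‖ := by unfold gk; rw [norm_div, norm_one]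
  have ng' : ‖gk σ s‖ = 1 / ‖1 + s * σ‖ := by unfold gk; rw [norm_div, norm_one]
  have pτ : 0 < ‖1 + τ * σ‖ := norm_pos_iff.2 hτ
  have ps : 0 < ‖1 + s * σ‖ := norm_pos_iff.2 hs
  have pτ2 : 0 < ‖1 + σ * τ‖ := norm_pos_iff.2 hτ2
  have ps2 : 0 < ‖1 + σ * s‖ := norm_pos_iff.2 hs2
  have pσ : 0 < ‖σ‖ := norm_pos_iff.2 h0
  have pd : 0 < |τ - s| := abs_pos.2 (sub_ne_zero.2 h)
  unfold nu NN
  have k1 : ‖gk σ τ * d‖ * (1 + |τ|) =
      ‖(gk σ s - gk σ τ) * d‖ * (‖1 + s * σ‖ * (1 + |τ|) / (|τ - s| * ‖σ‖)) := by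
    rw [norm_mul, norm_mul, na, ng]
    field_simp
  have k2 : ‖gk σ s * d‖ * (1 + |s|) =
      ‖(gk σ s - gk σ τ) * d‖ * (‖1 + τ * σ‖ * (1 + |s|) / (|τ - s| * ‖σ‖)) := by
    rw [norm_mul, norm_mul, na, ng']
    field_simp
  rw [k1, k2, ng, ng', na, ← sq_abs (τ - s)]
  have k3 : ∀ A B : ℝ, (1 / ‖1 + τ * σ‖) ^ 2 * A * ((1 / ‖1 + s * σ‖) ^ 2 * B) =
      (|τ - s| * ‖σ‖ / (‖1 + τ * σ‖ * ‖1 + s * σ‖)) ^ 2 *
        (1 / (|τ - s| ^ 2 * ‖σ‖ ^ 2) * A * B) := by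
    intro A B
    field_simp
  exact k3 _ _

theorem sub_alpha (σ : ℂ) (him : σ.im ≠ 0) (m : ℝ) (f : ℂ → ℂ) {τ s : ℝ} (h : τ ≠ s) :
    ∫ d : ℂ, ((nu σ m d τ * nu σ m d s : ℝ) : ℂ) *
      ∫ x : ℂ, conj (f (x + gk σ τ * d)) * conj (f (x + (1 - gk σ τ) * d)) *
        f (x + gk σ s * d) * f (x + (1 - gk σ s) * d) =
      ∫ α : ℂ, (NN σ m ‖α‖ τ s : ℂ) *
        ∫ p : ℂ, conj (Fp f α p) * Fp f α (p + zz σ τ s * α) := by
  have hτ := one_add_ne him τ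
  have hs := one_add_ne him s
  have hτ2 : (1 : ℂ) + σ * τ ≠ 0 := by rwa [mul_comm σ]
  have hs2 : (1 : ℂ) + σ * s ≠ 0 := by rwa [mul_comm σ]
  have h0 : σ ≠ 0 := by rintro rfl; simp at him
  have h1 : (τ : ℂ) - s ≠ 0 := by
    rw [sub_ne_zero]; exact_mod_cast h
  have ea : gk σ s - gk σ τ = ((τ : ℂ) - s) * σ / ((1 + τ * σ) * (1 + s * σ)) := by
    unfold gk
    field_simp
    ring
  have ha : gk σ s - gk σ τ ≠ 0 := by
    rw [ea]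
    exact div_ne_zero (mul_ne_zero h1 h0) (mul_ne_zero hτ hs)
  have e := integral_comp_cmul (gk σ s - gk σ τ) ha (fun α => (NN σ m ‖α‖ τ s : ℂ) *
        ∫ p : ℂ, conj (Fp f α p) * Fp f α (p + zz σ τ s * α))
  have hn : (‖gk σ s - gk σ τ‖ : ℂ) ≠ 0 := by simpa using ha
  have e2 : ∫ α : ℂ, (NN σ m ‖α‖ τ s : ℂ) *
        ∫ p : ℂ, conj (Fp f α p) * Fp f α (p + zz σ τ s * α) =
      ((‖gk σ s - gk σ τ‖ ^ 2 : ℝ) : ℂ) * ∫ d : ℂ, (NN σ m ‖(gk σ s - gk σ τ) * d‖ τ s : ℂ) *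
        ∫ p : ℂ, conj (Fp f ((gk σ s - gk σ τ) * d) p) *
          Fp f ((gk σ s - gk σ τ) * d) (p + zz σ τ s * ((gk σ s - gk σ τ) * d)) := by
    rw [e]
    push_cast
    field_simp
  rw [e2, ← integral_const_mul]
  refine integral_congr_ae (Filter.Eventually.of_forall fun d => ?_)
  simp only
  rw [inner_sub σ him f h d, nu_mul σ him m h d]
  push_cast
  ring

end Pool.Agent.H42.Pl
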