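import Pool.Agent.H42.Pl.Op
import Pool.Agent.H42.Pl.Sub

/-!
# The hypothesis after the substitution and the theorem of Fubini
-/

open MeasureTheory Set
open scoped ComplexConjugate

namespace Pool.Agent.H42.Pl

open Pool.Agent.H67.Pl

/-- The integrand, as a function of `((τ, s), (α, p))`. -/
private noncomputable def hypConv_psi (σ : ℂ) (m : ℝ) (f : ℂ → ℂ) (z : (ℝ × ℝ) × (ℂ × ℂ)) : ℂ :=
  (NN σ m ‖z.2.1‖ z.1.1 z.1.2 : ℂ) *
    (conj (Fp f z.2.1 z.2.2) * Fp f z.2.1 (z.2.2 + zz σ z.1.1 z.1.2 * z.2.1))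

private theorem hypConv_meas_Fp {f : ℂ → ℂ} (hf : Measurable f) :
    Measurable fun w : ℂ × ℂ => Fp f w.1 w.2 := by
  unfold Fp
  have h1 : Measurable fun w : ℂ × ℂ => f (w.2 + w.1) := by fun_prop
  have h2 : Measurable fun w : ℂ × ℂ => f w.2 := by fun_prop
  exact h2.mul (Complex.continuous_conj.measurable.comp h1)

private theorem hypConv_meas_Fpz {f : ℂ → ℂ} (hf : Measurable f) (σ : ℂ) :
    Measurable fun z : (ℝ × ℝ) × (ℂ × ℂ) => Fp f z.2.1 (z.2.2 + zz σ z.1.1 z.1.2 * z.2.1) := by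
  have h1 : Measurable fun z : (ℝ × ℝ) × (ℂ × ℂ) => zz σ z.1.1 z.1.2 :=
    (measurable_zz σ).comp measurable_fst
  have h2 : Measurable fun z : (ℝ × ℝ) × (ℂ × ℂ) => z.2.2 + zz σ z.1.1 z.1.2 * z.2.1 := by
    fun_prop
  exact (hypConv_meas_Fp hf).comp ((measurable_fst.comp measurable_snd).prodMk h2)

private theorem hypConv_meas_NN' (σ : ℂ) (m : ℝ) :
    Measurable fun z : (ℝ × ℝ) × (ℂ × ℂ) => NN σ m ‖z.2.1‖ z.1.1 z.1.2 := by
  have h1 : Measurable fun z : (ℝ × ℝ) × (ℂ × ℂ) => ((‖z.2.1‖, z.1.1), z.1.2) :=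
    ((measurable_fst.comp measurable_snd).norm.prodMk
      (measurable_fst.comp measurable_fst)).prodMk (measurable_snd.comp measurable_fst)
  have h2 := (measurable_NN σ m).comp h1
  exact h2

private theorem hypConv_meas_NN (σ : ℂ) (m : ℝ) :
    Measurable fun z : (ℝ × ℝ) × (ℂ × ℂ) => ((NN σ m ‖z.2.1‖ z.1.1 z.1.2 : ℝ) : ℂ) :=
  Complex.measurable_ofReal.comp (hypConv_meas_NN' σ m)

private theorem hypConv_meas_psi (σ : ℂ) (m : ℝ) {f : ℂ → ℂ} (hf : Measurable f) :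
    Measurable (hypConv_psi σ m f) := by
  unfold hypConv_psi
  refine (hypConv_meas_NN σ m).mul ((Complex.continuous_conj.measurable.comp
    ((hypConv_meas_Fp hf).comp measurable_snd)).mul (hypConv_meas_Fpz hf σ))

theorem AA_meas {R : ℝ} (σ : ℂ) (m t₁ ℓ : ℝ) (f : ℂ → ℂ) (hf : Bd R f) :
    Measurable (fun z : ℝ × (ℂ × ℂ) => AA σ m t₁ ℓ z.2.1 z.1 (Fp f z.2.1) z.2.2) := by
  have h1 : StronglyMeasurable fun w : (ℝ × (ℂ × ℂ)) × ℝ =>
      (NN σ m ‖w.1.2.1‖ w.2 w.1.1 : ℂ) * Fp f w.1.2.1 (w.1.2.2 + zz σ w.2 w.1.1 * w.1.2.1) := by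
    apply Measurable.stronglyMeasurable
    have h2 : Measurable fun w : (ℝ × (ℂ × ℂ)) × ℝ =>
      (((w.2, w.1.1), w.1.2) : (ℝ × ℝ) × (ℂ × ℂ)) := by fun_prop
    exact ((hypConv_meas_NN σ m).comp h2).mul ((hypConv_meas_Fpz hf.meas σ).comp h2)
  have h3 : ∀ s : Set ℝ, Measurable fun z : ℝ × (ℂ × ℂ) => ∫ τ in s,
      (NN σ m ‖z.2.1‖ τ z.1 : ℂ) * Fp f z.2.1 (z.2.2 + zz σ τ z.1 * z.2.1) := fun s =>
    (StronglyMeasurable.integral_prod_right' (ν := volume.restrict s) h1).measurable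
  exact (h3 (Ioc t₁ (t₁ + ℓ))).sub (h3 (Ioc (t₁ + ℓ) t₁))

private theorem hypConv_Fp_le {R : ℝ} {f : ℂ → ℂ} (hf : Bd R f) (α p : ℂ) : ‖Fp f α p‖ ≤ 1 := by
  unfold Fp
  rw [norm_mul, RCLike.norm_conj]
  exact mul_le_one₀ (hf.le_one _) (norm_nonneg _) (hf.le_one _)

private theorem hypConv_psi_le {σ : ℂ} {Q m R : ℝ} (P : Par σ Q) (hm : 0 < m) {f : ℂ → ℂ}
    (hf : Bd R f) {τ s : ℝ} (h : 1 / Q ≤ |τ - s|) (w : ℂ × ℂ) :
    ‖hypConv_psi σ m f ((τ, s), w)‖ ≤ Q ^ 4 / m ^ 4 := by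
  have h0 := P.pos
  unfold hypConv_psi
  rw [norm_mul, norm_mul, RCLike.norm_conj, Complex.norm_real,
    Real.norm_of_nonneg (P.NN_nonneg hm _ _ _)]
  have h1 : ‖Fp f w.1 w.2‖ * ‖Fp f w.1 (w.2 + zz σ τ s * w.1)‖ ≤ 1 :=
    mul_le_one₀ (hypConv_Fp_le hf _ _) (norm_nonneg _) (hypConv_Fp_le hf _ _)
  calc NN σ m ‖w.1‖ τ s * (‖Fp f w.1 w.2‖ * ‖Fp f w.1 (w.2 + zz σ τ s * w.1)‖)
      ≤ Q ^ 4 / m ^ 4 * 1 := mul_le_mul (P.NN_le hm (norm_nonneg _) h) h1 (by positivity)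
        (by positivity)
    _ = _ := mul_one _

private theorem hypConv_psi_zero {σ : ℂ} {Q m R : ℝ} (P : Par σ Q) (hm : 0 < m) {f : ℂ → ℂ}
    (hf : Bd R f) (hR : R ≤ Q) {τ s : ℝ} (h : 1 / Q ≤ |τ - s|) (hτ : |τ| ≤ Q) (hs : |s| ≤ Q)
    {w : ℂ × ℂ} (hw : w ∉ Metric.ball (0 : ℂ) (Q ^ 5 * m) ×ˢ Metric.ball (0 : ℂ) (Q ^ 11)) :
    hypConv_psi σ m f ((τ, s), w) = 0 := by
  unfold hypConv_psi
  rw [mem_prod, not_and_or, mem_ball_zero_iff, mem_ball_zero_iff, not_lt, not_lt] at hw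
  rcases hw with hw | hw
  · simp only [P.NN_zero hm hw h hτ hs, Complex.ofReal_zero, zero_mul]
  · have h1 : R < ‖w.2‖ := by
      have h2 := P.pow_le (show 2 ≤ 11 by norm_num)
      have h3 := P.hQ
      nlinarith
    have h4 : Fp f w.1 w.2 = 0 := by
      unfold Fp
      rw [hf.supp _ h1, zero_mul]
    simp only [h4, map_zero, zero_mul, mul_zero]

/-- The set of the pairs `(α, p)`. -/
private noncomputable def hypConv_B (Q m : ℝ) : Set (ℂ × ℂ) :=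
  Metric.ball (0 : ℂ) (Q ^ 5 * m) ×ˢ Metric.ball (0 : ℂ) (Q ^ 11)

private theorem hypConv_B_meas (Q m : ℝ) : MeasurableSet (hypConv_B Q m) :=
  measurableSet_ball.prod measurableSet_ball

private theorem hypConv_B_lt (Q m : ℝ) : volume (hypConv_B Q m) < ⊤ := by
  unfold hypConv_B
  rw [Measure.volume_eq_prod, Measure.prod_prod]
  exact ENNReal.mul_lt_top measure_ball_lt_top measure_ball_lt_top

/-- The inner integral over `α` and `p`. -/
private theorem hypConv_inner {σ : ℂ} {Q m R : ℝ} (P : Par σ Q) (hm : 0 < m) {f : ℂ → ℂ}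
    (hf : Bd R f) (hR : R ≤ Q) {τ s : ℝ} (h : 1 / Q ≤ |τ - s|) (hτ : |τ| ≤ Q) (hs : |s| ≤ Q) :
    ∫ α : ℂ, (NN σ m ‖α‖ τ s : ℂ) * ∫ p : ℂ, conj (Fp f α p) * Fp f α (p + zz σ τ s * α) =
      ∫ w in hypConv_B Q m, hypConv_psi σ m f ((τ, s), w) := by
  have hint : IntegrableOn (fun w => hypConv_psi σ m f ((τ, s), w)) (hypConv_B Q m) := by
    refine Measure.integrableOn_of_bounded (M := Q ^ 4 / m ^ 4) (hypConv_B_lt Q m).ne ?_ ?_
    · exact ((hypConv_meas_psi σ m hf.meas).comp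
        (measurable_const.prodMk measurable_id)).aestronglyMeasurable
    · exact Filter.Eventually.of_forall fun w => hypConv_psi_le P hm hf h w
  rw [Measure.volume_eq_prod] at hint ⊢
  unfold hypConv_B at hint ⊢
  rw [setIntegral_prod _ hint]
  rw [← setIntegral_eq_integral_of_forall_compl_eq_zero
    (s := Metric.ball (0 : ℂ) (Q ^ 5 * m))]
  · congr 1
    funext α
    rw [← integral_const_mul]
    rw [← setIntegral_eq_integral_of_forall_compl_eq_zero (s := Metric.ball (0 : ℂ) (Q ^ 11))]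
    · rfl
    · intro p hp
      exact hypConv_psi_zero P hm hf hR h hτ hs (w := (α, p)) fun hc => hp hc.2
  · intro α hα
    rw [mem_ball_zero_iff, not_lt] at hα
    rw [P.NN_zero hm hα h hτ hs, Complex.ofReal_zero, zero_mul]

/-- Fubini for a bounded function on a product of sets of finite measure. -/
private theorem hypConv_fubini {X Y : Type*} [MeasureSpace X] [MeasureSpace Y]
    [SFinite (volume : Measure X)] [SFinite (volume : Measure Y)] {A : Set X} {B : Set Y}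
    (hA : MeasurableSet A) (hB : MeasurableSet B) (hA' : volume A < ⊤) (hB' : volume B < ⊤)
    (F : X → Y → ℂ) (hF : Measurable (Function.uncurry F)) (C : ℝ)
    (hC : ∀ x ∈ A, ∀ y ∈ B, ‖F x y‖ ≤ C) :
    ∫ x in A, ∫ y in B, F x y = ∫ y in B, ∫ x in A, F x y := by
  have : IsFiniteMeasure (volume.restrict A) := ⟨by rwa [Measure.restrict_apply_univ]⟩
  have : IsFiniteMeasure (volume.restrict B) := ⟨by rwa [Measure.restrict_apply_univ]⟩
  apply integral_integral_swap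
  refine Integrable.of_bound hF.aestronglyMeasurable C ?_
  rw [Measure.prod_restrict]
  refine (ae_restrict_iff' (hA.prod hB)).2 (Filter.Eventually.of_forall fun z hz => ?_)
  exact hC z.1 hz.1 z.2 hz.2

theorem hyp_conv {σ : ℂ} {Q m t₁ ℓ t₂ R : ℝ} (P : Par σ Q) (hm : 0 < m) (hm1 : m ≤ 1)
    (f : ℂ → ℂ) (hf : Bd R f) (hR : R ≤ Q) (hℓ : 0 < ℓ)
    (hS : ∀ s ∈ Icc t₂ (t₂ + ℓ), Sep Q t₁ ℓ s) :
    ∫ τ in t₁..(t₁ + ℓ), ∫ τ' in t₂..(t₂ + ℓ), ∫ d : ℂ, ((nu σ m d τ * nu σ m d τ' : ℝ) : ℂ) *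
        ∫ x : ℂ, conj (f (x + gk σ τ * d)) * conj (f (x + (1 - gk σ τ) * d)) *
          f (x + gk σ τ' * d) * f (x + (1 - gk σ τ') * d) =
      ∫ s in t₂..(t₂ + ℓ), ∫ ω : ℂ × ℂ, conj (Fp f ω.1 ω.2) *
        AA σ m t₁ ℓ ω.1 s (Fp f ω.1) ω.2
          ∂(volume.restrict (Metric.ball (0 : ℂ) (Q ^ 5 * m) ×ˢ Metric.ball (0 : ℂ) (Q ^ 11))) := by
  have h0 := P.pos
  have hle1 : t₁ ≤ t₁ + ℓ := by linarith
  have hle2 : t₂ ≤ t₂ + ℓ := by linarith
  have hsep : ∀ τ ∈ Ioc t₁ (t₁ + ℓ), ∀ s ∈ Ioc t₂ (t₂ + ℓ), 1 / Q ≤ |τ - s| ∧ |τ| ≤ Q ∧ |s| ≤ Q :=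
    fun τ hτ s hs => by
      have h1 := hS s (Ioc_subset_Icc_self hs)
      exact ⟨h1.abs_sub (Ioc_subset_Icc_self hτ), h1.abs_le (Ioc_subset_Icc_self hτ), h1.hs⟩
  rw [intervalIntegral.integral_of_le hle1, intervalIntegral.integral_of_le hle2]
  have e1 : ∫ τ in Ioc t₁ (t₁ + ℓ), ∫ τ' in t₂..(t₂ + ℓ), ∫ d : ℂ,
      ((nu σ m d τ * nu σ m d τ' : ℝ) : ℂ) *
        ∫ x : ℂ, conj (f (x + gk σ τ * d)) * conj (f (x + (1 - gk σ τ) * d)) *
          f (x + gk σ τ' * d) * f (x + (1 - gk σ τ') * d) =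
      ∫ τ in Ioc t₁ (t₁ + ℓ), ∫ s in Ioc t₂ (t₂ + ℓ),
        ∫ w in hypConv_B Q m, hypConv_psi σ m f ((τ, s), w) := by
    refine setIntegral_congr_fun measurableSet_Ioc fun τ hτ => ?_
    rw [intervalIntegral.integral_of_le hle2]
    refine setIntegral_congr_fun measurableSet_Ioc fun s hs => ?_
    obtain ⟨a1, a2, a3⟩ := hsep τ hτ s hs
    have hne : τ ≠ s := by
      intro h
      rw [h, sub_self, abs_zero] at a1
      have : 0 < 1 / Q := by positivity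
      linarith
    rw [sub_alpha σ P.im_ne m f hne, hypConv_inner P hm hf hR a1 a2 a3]
  rw [e1]
  have hm2 := hypConv_meas_psi σ m hf.meas
  have hG : Measurable fun z : ℝ × ℝ => ∫ w in hypConv_B Q m, hypConv_psi σ m f (z, w) :=
    (StronglyMeasurable.integral_prod_right' (ν := volume.restrict (hypConv_B Q m))
      hm2.stronglyMeasurable).measurable
  have e2 := hypConv_fubini (A := Ioc t₁ (t₁ + ℓ)) (B := Ioc t₂ (t₂ + ℓ)) measurableSet_Ioc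
    measurableSet_Ioc measure_Ioc_lt_top measure_Ioc_lt_top
    (fun τ s => ∫ w in hypConv_B Q m, hypConv_psi σ m f ((τ, s), w)) hG
    (Q ^ 4 / m ^ 4 * (volume : Measure (ℂ × ℂ)).real (hypConv_B Q m)) (fun τ hτ s hs =>
      norm_setIntegral_le_of_norm_le_const (hypConv_B_lt Q m)
        (fun w _ => hypConv_psi_le P hm hf (hsep τ hτ s hs).1 w))
  rw [e2]
  refine setIntegral_congr_fun measurableSet_Ioc fun s hs => ?_
  have hm3 : Measurable (Function.uncurry fun (τ : ℝ) (w : ℂ × ℂ) =>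
      hypConv_psi σ m f ((τ, s), w)) := by
    have h1 : Measurable fun z : ℝ × (ℂ × ℂ) => (((z.1, s), z.2) : (ℝ × ℝ) × (ℂ × ℂ)) := by
      fun_prop
    exact hm2.comp h1
  have e3 := hypConv_fubini (A := Ioc t₁ (t₁ + ℓ)) (B := hypConv_B Q m) measurableSet_Ioc
    (hypConv_B_meas Q m) measure_Ioc_lt_top (hypConv_B_lt Q m)
    (fun τ w => hypConv_psi σ m f ((τ, s), w)) hm3 (Q ^ 4 / m ^ 4)
    (fun τ hτ w _ => hypConv_psi_le P hm hf (hsep τ hτ s hs).1 w)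
  rw [e3]
  change _ = ∫ ω in hypConv_B Q m, conj (Fp f ω.1 ω.2) * AA σ m t₁ ℓ ω.1 s (Fp f ω.1) ω.2
  congr 1
  funext w
  unfold AA
  rw [intervalIntegral.integral_of_le hle1, ← integral_const_mul]
  congr 1
  funext τ
  unfold hypConv_psi
  ring

end Pool.Agent.H42.Pl
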