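import Mathlib

/-!
# A van der Corput type lemma
-/

open MeasureTheory
open scoped ComplexConjugate

namespace Pool.Agent.H42.Pl

theorem vdc {Ω : Type*} [MeasurableSpace Ω] (μ : Measure Ω) [IsFiniteMeasure μ]
    (K : ℝ × Ω → ℂ) (hK : Measurable K) (β : ℝ) (hβ : ∀ z, ‖K z‖ ≤ β)
    (G : Ω → ℂ) (hG : Measurable G) (hG1 : ∀ ω, ‖G ω‖ ≤ 1) (a ℓ δ κ V : ℝ) (hℓ : 0 < ℓ)
    (hℓ1 : ℓ ≤ 1) (hδ : 0 < δ) (hκ : 0 < κ) (hV : μ.real Set.univ ≤ V) (hV0 : 0 < V)
    (h1 : κ ≤ ‖∫ s in a..(a + ℓ), ∫ ω, G ω * K (s, ω) ∂μ‖)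
    (h2 : 4 * δ * β ^ 2 * V ^ 2 < κ ^ 2) :
    ∃ s u, s ∈ Set.Icc a (a + ℓ) ∧ u ∈ Set.Icc a (a + ℓ) ∧ δ ≤ |s - u| ∧
      κ ^ 2 / (2 * V) ≤ ‖∫ ω, K (s, ω) * conj (K (u, ω)) ∂μ‖ := by
  classical
  by_contra hcon
  push Not at hcon
  have hβ0 : 0 ≤ β := (norm_nonneg _).trans (hβ (a, Classical.choice (by
    by_contra hne
    rw [not_nonempty_iff] at hne
    have : ∀ s, ∫ ω, G ω * K (s, ω) ∂μ = 0 := fun s => integral_of_isEmpty
    simp only [this, intervalIntegral.integral_zero, norm_zero] at h1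
    linarith)))
  set ν : Measure ℝ := volume.restrict (Set.Ioc a (a + ℓ)) with hν
  have : IsFiniteMeasure ν := ⟨by rw [hν, Measure.restrict_apply_univ]; simp⟩
  have hνu : ν.real Set.univ = ℓ := by
    rw [hν, measureReal_restrict_apply_univ, Real.volume_real_Ioc_of_le (by linarith)]; ring
  rw [intervalIntegral.integral_of_le (by linarith)] at h1
  change κ ≤ ‖∫ s, ∫ ω, G ω * K (s, ω) ∂μ ∂ν‖ at h1
  set S : Ω → ℂ := fun ω => ∫ s, K (s, ω) ∂ν with hS
  have hKi : Integrable K (ν.prod μ) :=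
    Integrable.of_bound hK.aestronglyMeasurable β (Filter.Eventually.of_forall hβ)
  have hGKi : Integrable (fun z : ℝ × Ω => G z.2 * K z) (ν.prod μ) := by
    refine Integrable.of_bound ((hG.comp measurable_snd).mul hK).aestronglyMeasurable β
      (Filter.Eventually.of_forall fun z => ?_)
    rw [norm_mul]
    calc _ ≤ 1 * β := mul_le_mul (hG1 _) (hβ _) (norm_nonneg _) zero_le_one
      _ = β := one_mul β
  have hSm : StronglyMeasurable S := by
    have h3 : StronglyMeasurable (fun z : Ω × ℝ => K (z.2, z.1)) :=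
      (hK.comp (measurable_snd.prodMk measurable_fst)).stronglyMeasurable
    exact h3.integral_prod_right'
  have hSb : ∀ ω, ‖S ω‖ ≤ β * ℓ := by
    intro ω
    have := norm_integral_le_of_norm_le_const (μ := ν) (f := fun s => K (s, ω)) (C := β)
      (Filter.Eventually.of_forall fun s => hβ _)
    rwa [hνu] at this
  have hswap : ∫ s, ∫ ω, G ω * K (s, ω) ∂μ ∂ν = ∫ ω, G ω * S ω ∂μ := by
    rw [integral_integral_swap (f := fun s ω => G ω * K (s, ω)) hGKi]
    refine integral_congr_ae (Filter.Eventually.of_forall fun ω => ?_)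
    exact integral_const_mul _ _
  rw [hswap] at h1
  have hS1 : Integrable (fun ω => ‖S ω‖) μ := by
    refine Integrable.of_bound hSm.norm.aestronglyMeasurable (β * ℓ)
      (Filter.Eventually.of_forall fun ω => ?_)
    rw [norm_norm]; exact hSb ω
  have hS2 : Integrable (fun ω => ‖S ω‖ ^ 2) μ := by
    refine Integrable.of_bound (hSm.norm.pow 2).aestronglyMeasurable ((β * ℓ) ^ 2)
      (Filter.Eventually.of_forall fun ω => ?_)
    rw [norm_pow, norm_norm]; exact pow_le_pow_left₀ (norm_nonneg _) (hSb ω) 2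
  have h3 : κ ≤ ∫ ω, ‖S ω‖ ∂μ := by
    refine h1.trans ((norm_integral_le_integral_norm _).trans (integral_mono_of_nonneg
      (Filter.Eventually.of_forall fun ω => norm_nonneg _) hS1
      (Filter.Eventually.of_forall fun ω => ?_)))
    change ‖G ω * S ω‖ ≤ ‖S ω‖
    rw [norm_mul]
    calc _ ≤ 1 * ‖S ω‖ := mul_le_mul_of_nonneg_right (hG1 _) (norm_nonneg _)
      _ = _ := one_mul _
  -- Cauchy-Schwarz by a quadratic
  have h4 : κ ^ 2 ≤ V * ∫ ω, ‖S ω‖ ^ 2 ∂μ := by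
    have hI2 : 0 ≤ ∫ ω, ‖S ω‖ ^ 2 ∂μ := integral_nonneg fun ω => by positivity
    set c : ℝ := κ / V with hc
    have h5 : 0 ≤ ∫ ω, (‖S ω‖ - c) ^ 2 ∂μ := integral_nonneg fun ω => by positivity
    have h6 : ∫ ω, (‖S ω‖ - c) ^ 2 ∂μ = ∫ ω, ‖S ω‖ ^ 2 ∂μ - 2 * c * ∫ ω, ‖S ω‖ ∂μ +
        c ^ 2 * μ.real Set.univ := by
      have e1 : (fun ω => (‖S ω‖ - c) ^ 2) = fun ω => (‖S ω‖ ^ 2 - 2 * c * ‖S ω‖) + c ^ 2 := by
        funext ω; ring
      have i1 : Integrable (fun ω => 2 * c * ‖S ω‖) μ := hS1.const_mul _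
      have i2 : Integrable (fun ω => ‖S ω‖ ^ 2 - 2 * c * ‖S ω‖) μ := hS2.sub i1
      rw [e1, integral_add i2 (integrable_const _),
        integral_sub hS2 i1, integral_const_mul, integral_const]
      simp only [smul_eq_mul]; ring
    rw [h6] at h5
    have hc0 : 0 < c := div_pos hκ hV0
    have h7 : 2 * c * κ ≤ 2 * c * ∫ ω, ‖S ω‖ ∂μ := mul_le_mul_of_nonneg_left h3 (by positivity)
    have h8 : c ^ 2 * μ.real Set.univ ≤ c ^ 2 * V := mul_le_mul_of_nonneg_left hV (by positivity)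
    have h9 : 2 * c * κ - c ^ 2 * V ≤ ∫ ω, ‖S ω‖ ^ 2 ∂μ := by linarith
    have h10 : V * (2 * c * κ - c ^ 2 * V) = κ ^ 2 := by
      rw [hc]; field_simp; ring
    calc κ ^ 2 = V * (2 * c * κ - c ^ 2 * V) := h10.symm
      _ ≤ _ := mul_le_mul_of_nonneg_left h9 hV0.le
  set Γ : ℝ → ℝ → ℂ := fun s u => ∫ ω, K (s, ω) * conj (K (u, ω)) ∂μ with hΓ
  have hb3 : Integrable (fun z : Ω × (ℝ × ℝ) => K (z.2.1, z.1) * conj (K (z.2.2, z.1)))
      (μ.prod (ν.prod ν)) := by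
    refine Integrable.of_bound ?_ (β * β) (Filter.Eventually.of_forall fun z => ?_)
    · apply Measurable.aestronglyMeasurable
      refine (hK.comp ?_).mul (Complex.continuous_conj.measurable.comp (hK.comp ?_))
      · exact (measurable_fst.comp measurable_snd).prodMk measurable_fst
      · exact (measurable_snd.comp measurable_snd).prodMk measurable_fst
    · rw [norm_mul, RCLike.norm_conj]
      exact mul_le_mul (hβ _) (hβ _) (norm_nonneg _) hβ0
  have h5 : ((∫ ω, ‖S ω‖ ^ 2 ∂μ : ℝ) : ℂ) = ∫ z : ℝ × ℝ, Γ z.1 z.2 ∂(ν.prod ν) := by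
    rw [← integral_complex_ofReal]
    have e1 : ∀ ω, ((‖S ω‖ ^ 2 : ℝ) : ℂ) =
        ∫ z : ℝ × ℝ, K (z.1, ω) * conj (K (z.2, ω)) ∂(ν.prod ν) := by
      intro ω
      rw [integral_prod_mul (f := fun s => K (s, ω)) (g := fun u => conj (K (u, ω))),
        integral_conj]
      change ((‖S ω‖ ^ 2 : ℝ) : ℂ) = S ω * conj (S ω)
      rw [Complex.mul_conj, Complex.normSq_eq_norm_sq]
    simp_rw [e1]
    rw [integral_integral_swap (f := fun ω (z : ℝ × ℝ) => K (z.1, ω) * conj (K (z.2, ω))) hb3]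
  have hΓb : ∀ s u, ‖Γ s u‖ ≤ β ^ 2 * V := by
    intro s u
    have := norm_integral_le_of_norm_le_const (μ := μ)
      (f := fun ω => K (s, ω) * conj (K (u, ω))) (C := β * β)
      (Filter.Eventually.of_forall fun ω => by
        rw [norm_mul, RCLike.norm_conj]
        exact mul_le_mul (hβ _) (hβ _) (norm_nonneg _) hβ0)
    refine this.trans ?_
    rw [sq]
    exact mul_le_mul_of_nonneg_left hV (by positivity)
  -- the bound for the double integral
  have hms : MeasurableSet {z : ℝ × ℝ | |z.1 - z.2| < δ} :=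
    (isOpen_lt (by fun_prop) continuous_const).measurableSet
  have h6 : ∫ ω, ‖S ω‖ ^ 2 ∂μ ≤ κ ^ 2 / (2 * V) * ℓ ^ 2 + β ^ 2 * V * (2 * δ * ℓ) := by
    have e0 : ∫ ω, ‖S ω‖ ^ 2 ∂μ = ‖((∫ ω, ‖S ω‖ ^ 2 ∂μ : ℝ) : ℂ)‖ := by
      rw [Complex.norm_real, Real.norm_of_nonneg (integral_nonneg fun ω => by positivity)]
    rw [e0, h5]
    have hae : ∀ᵐ z ∂(ν.prod ν), ‖Γ z.1 z.2‖ ≤ κ ^ 2 / (2 * V) +
        {z : ℝ × ℝ | |z.1 - z.2| < δ}.indicator (fun _ => β ^ 2 * V) z := by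
      have hmem : ∀ᵐ z ∂(ν.prod ν), z ∈ (Set.Ioc a (a + ℓ)) ×ˢ (Set.Ioc a (a + ℓ)) := by
        rw [hν, Measure.prod_restrict]
        exact ae_restrict_mem (measurableSet_Ioc.prod measurableSet_Ioc)
      filter_upwards [hmem] with z hz
      by_cases hz2 : |z.1 - z.2| < δ
      · rw [Set.indicator_of_mem (by exact hz2)]
        have := hΓb z.1 z.2
        have : 0 ≤ κ ^ 2 / (2 * V) := by positivity
        linarith
      · rw [Set.indicator_of_notMem (by exact hz2), add_zero]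
        exact (hcon z.1 z.2 ⟨hz.1.1.le, hz.1.2⟩ ⟨hz.2.1.le, hz.2.2⟩ (not_lt.1 hz2)).le
    have hi1 : Integrable (fun z : ℝ × ℝ => κ ^ 2 / (2 * V) +
        {z : ℝ × ℝ | |z.1 - z.2| < δ}.indicator (fun _ => β ^ 2 * V) z) (ν.prod ν) :=
      (integrable_const _).add ((integrable_const _).indicator hms)
    refine (norm_integral_le_of_norm_le hi1 hae).trans ?_
    rw [integral_add (integrable_const _) ((integrable_const _).indicator hms), integral_const,
      integral_indicator_const _ hms]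
    have e2 : (ν.prod ν).real Set.univ = ℓ ^ 2 := by
      rw [← Set.univ_prod_univ, measureReal_prod_prod, hνu]; ring
    have e3 : (ν.prod ν).real {z : ℝ × ℝ | |z.1 - z.2| < δ} ≤ 2 * δ * ℓ := by
      rw [measureReal_def, Measure.prod_apply hms]
      have e4 : ∀ x, ν (Prod.mk x ⁻¹' {z : ℝ × ℝ | |z.1 - z.2| < δ}) ≤ ENNReal.ofReal (2 * δ) := by
        intro x
        refine (Measure.restrict_apply_le _ _).trans ?_
        have e5 : Prod.mk x ⁻¹' {z : ℝ × ℝ | |z.1 - z.2| < δ} = Metric.ball x δ := by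
          ext y; simp [Real.dist_eq, abs_sub_comm]
        rw [e5, Real.volume_ball]
      have e6 : ∫⁻ x, ν (Prod.mk x ⁻¹' {z : ℝ × ℝ | |z.1 - z.2| < δ}) ∂ν ≤
          ENNReal.ofReal (2 * δ * ℓ) := by
        refine (lintegral_mono e4).trans ?_
        rw [lintegral_const, ENNReal.ofReal_mul (p := 2 * δ) (by positivity)]
        apply le_of_eq
        congr 1
        rw [hν, Measure.restrict_apply_univ, Real.volume_Ioc]
        congr 1; ring
      refine (ENNReal.toReal_mono ENNReal.ofReal_ne_top e6).trans ?_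
      rw [ENNReal.toReal_ofReal (by positivity)]
    rw [e2]
    simp only [smul_eq_mul]
    have : 0 ≤ β ^ 2 * V := by positivity
    nlinarith [mul_le_mul_of_nonneg_left e3 this]
  have h7 : κ ^ 2 ≤ κ ^ 2 / 2 * ℓ ^ 2 + 2 * δ * β ^ 2 * V ^ 2 * ℓ := by
    refine h4.trans ((mul_le_mul_of_nonneg_left h6 hV0.le).trans (le_of_eq ?_))
    field_simp
  have h8 : κ ^ 2 / 2 * ℓ ^ 2 ≤ κ ^ 2 / 2 := by
    have : ℓ ^ 2 ≤ 1 := pow_le_one₀ hℓ.le hℓ1
    nlinarith [sq_nonneg κ]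
  have h9 : 2 * δ * β ^ 2 * V ^ 2 * ℓ ≤ 2 * δ * β ^ 2 * V ^ 2 := by
    have : 0 ≤ 2 * δ * β ^ 2 * V ^ 2 := by positivity
    nlinarith
  linarith

end Pool.Agent.H42.Pl
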