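import Pool.Agent.H42.Pl.PerA
import Pool.Agent.H42.Pl.HypConv
import Pool.Agent.H42.Pl.Vdc

/-!
# The core estimate
-/

open MeasureTheory Set
open scoped ComplexConjugate

namespace Pool.Agent.H42.Pl

open Pool.Agent.H67.Pl

theorem vol_box {Q m : ℝ} (hQ : 16 ≤ Q) (hm : 0 < m) :
    (Real.pi * (Q ^ 5 * m) ^ 2) * (Real.pi * (Q ^ 11) ^ 2) ≤ Q ^ 33 * m ^ 2 := by
  have h0 : 0 < Q := by linarith
  have e : (Real.pi * (Q ^ 5 * m) ^ 2) * (Real.pi * (Q ^ 11) ^ 2) =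
      (Real.pi * Real.pi) * (Q ^ 32 * m ^ 2) := by ring
  have e2 : Q ^ 33 * m ^ 2 = Q * (Q ^ 32 * m ^ 2) := by ring
  rw [e, e2]
  apply mul_le_mul_of_nonneg_right _ (by positivity)
  have h1 := Real.pi_le_four
  have h2 := Real.pi_pos
  nlinarith

/-- the bound for a fixed `α` integrated -/
theorem final_split {Q m X Y I : ℝ} (hQ : 16 ≤ Q) (hm : 0 < m)
    (h1 : (1 / (Q * m ^ 2)) ^ 2 / (2 * (Q ^ 33 * m ^ 2)) ≤ Q ^ 8 / m ^ 8 * X +
      (1 / (Q ^ 48 * m ^ 8) * (Real.pi * (Q ^ 5 * m) ^ 2) +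
        Q ^ 31 / m ^ 8 * (Real.pi * (m / Q ^ 34) ^ 2)))
    (h2 : X ≤ 1 / (8 * Q ^ 76) * I + (1 / (1 / (8 * Q ^ 76))) * Y) (hI : I ≤ Q ^ 33 * m ^ 2) :
    m ^ 2 / Q ^ 121 ≤ Y := by
  have h0 : 0 < Q := by linarith
  have hp := Real.pi_pos
  have hp4 := Real.pi_le_four
  have a1 : (1 / (Q * m ^ 2)) ^ 2 / (2 * (Q ^ 33 * m ^ 2)) = 1 / (2 * Q ^ 35 * m ^ 6) := by
    field_simp
  have a2 : 1 / (Q ^ 48 * m ^ 8) * (Real.pi * (Q ^ 5 * m) ^ 2) ≤ 1 / (16 * Q ^ 35 * m ^ 6) := by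
    have : 1 / (Q ^ 48 * m ^ 8) * (Real.pi * (Q ^ 5 * m) ^ 2) = Real.pi / (Q ^ 38 * m ^ 6) := by
      field_simp
    rw [this, div_le_div_iff₀ (by positivity) (by positivity)]
    have e : 1 * (Q ^ 38 * m ^ 6) = (Q * Q ^ 2) * (Q ^ 35 * m ^ 6) := by ring
    have e' : Real.pi * (16 * Q ^ 35 * m ^ 6) = (Real.pi * 16) * (Q ^ 35 * m ^ 6) := by ring
    rw [e, e']
    apply mul_le_mul_of_nonneg_right _ (by positivity)
    have : 16 * 16 ≤ Q ^ 2 := by nlinarith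
    nlinarith
  have a3 : Q ^ 31 / m ^ 8 * (Real.pi * (m / Q ^ 34) ^ 2) ≤ 1 / (16 * Q ^ 35 * m ^ 6) * 4 := by
    have : Q ^ 31 / m ^ 8 * (Real.pi * (m / Q ^ 34) ^ 2) = Real.pi / (Q ^ 37 * m ^ 6) := by
      field_simp
    rw [this, div_mul_eq_mul_div, div_le_div_iff₀ (by positivity) (by positivity)]
    have e : 1 * 4 * (Q ^ 37 * m ^ 6) = (4 * Q ^ 2) * (Q ^ 35 * m ^ 6) := by ring
    have e' : Real.pi * (16 * Q ^ 35 * m ^ 6) = (Real.pi * 16) * (Q ^ 35 * m ^ 6) := by ring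
    rw [e, e']
    apply mul_le_mul_of_nonneg_right _ (by positivity)
    have : 16 * 16 ≤ Q ^ 2 := by nlinarith
    nlinarith
  have a4 : 1 / (2 * Q ^ 35 * m ^ 6) = 8 * (1 / (16 * Q ^ 35 * m ^ 6)) := by
    field_simp; norm_num
  set Z := 1 / (16 * Q ^ 35 * m ^ 6) with hZ
  have hZ0 : 0 < Z := by positivity
  rw [a1, a4] at h1
  have b1 : 3 * Z ≤ Q ^ 8 / m ^ 8 * X := by linarith
  have b2 : 3 * m ^ 2 / (16 * Q ^ 43) ≤ X := by
    have : 3 * m ^ 2 / (16 * Q ^ 43) = 3 * Z / (Q ^ 8 / m ^ 8) := by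
      rw [hZ]; field_simp
    rw [this, div_le_iff₀ (by positivity)]
    linarith
  have b3 : 1 / (8 * Q ^ 76) * I ≤ 2 * m ^ 2 / (16 * Q ^ 43) := by
    calc 1 / (8 * Q ^ 76) * I ≤ 1 / (8 * Q ^ 76) * (Q ^ 33 * m ^ 2) :=
          mul_le_mul_of_nonneg_left hI (by positivity)
      _ = _ := by field_simp; norm_num
  have b4 : m ^ 2 / (16 * Q ^ 43) ≤ (1 / (1 / (8 * Q ^ 76))) * Y := by
    have e1 : 3 * m ^ 2 / (16 * Q ^ 43) = m ^ 2 / (16 * Q ^ 43) + 2 * m ^ 2 / (16 * Q ^ 43) := by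
      ring
    linarith
  have e : (1 / (1 / (8 * Q ^ 76))) = 8 * Q ^ 76 := by simp
  rw [e] at b4
  have b5 : m ^ 2 / (16 * Q ^ 43) / (8 * Q ^ 76) ≤ Y := by
    rw [div_le_iff₀ (by positivity)]
    linarith
  refine le_trans ?_ b5
  rw [div_div]
  apply div_le_div_of_nonneg_left (by positivity) (by positivity)
  have e1 : 16 * Q ^ 43 * (8 * Q ^ 76) = 128 * Q ^ 119 := by ring
  have e2 : Q ^ 121 = Q ^ 2 * Q ^ 119 := by ring
  rw [e1, e2]
  apply mul_le_mul_of_nonneg_right _ (by positivity)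
  nlinarith

theorem core {σ : ℂ} {Q : ℝ} (P : Par σ Q) {m t₁ ℓ t₂ R : ℝ} (hm : 0 < m) (hm1 : m ≤ 1)
    (f : ℂ → ℂ) (hf : Bd R f) (hR : R ≤ Q) (hℓ : 0 < ℓ) (hℓ1 : ℓ ≤ 1)
    (hS : ∀ s ∈ Icc t₂ (t₂ + ℓ), Sep Q t₁ ℓ s)
    (hSum : ∀ s ∈ Icc t₂ (t₂ + ℓ), ∀ u ∈ Icc t₂ (t₂ + ℓ), 2 / Q ≤ |s + u|)
    (H : 1 / Q ≤ ‖((m ^ 2 : ℝ) : ℂ) * ∫ τ in t₁..(t₁ + ℓ), ∫ τ' in t₂..(t₂ + ℓ),
      ∫ d : ℂ, ((nu σ m d τ * nu σ m d τ' : ℝ) : ℂ) *
        ∫ x : ℂ, conj (f (x + gk σ τ * d)) * conj (f (x + (1 - gk σ τ) * d)) *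
          f (x + gk σ τ' * d) * f (x + (1 - gk σ τ') * d)‖) :
    m ^ 2 / Q ^ 121 ≤ ∫ α in Metric.ball (0 : ℂ) (Q ^ 5 * m), ∫ p : ℂ,
      ‖Sq (m / Q ^ 220) (Fp f α) p‖ ^ 2 := by
  classical
  have h0 := P.pos
  have h16 := P.hQ
  set B₁ := Metric.ball (0 : ℂ) (Q ^ 5 * m) with hB₁
  set B₂ := Metric.ball (0 : ℂ) (Q ^ 11) with hB₂
  set β := Q ^ 4 / m ^ 4 with hβ
  have hβ0 : 0 < β := by positivity
  set w := m / Q ^ 220 with hw
  have hw0 : 0 < w := by positivity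
  have hfin : volume (B₁ ×ˢ B₂) < ⊤ := by
    rw [Measure.volume_eq_prod, Measure.prod_prod]
    exact ENNReal.mul_lt_top measure_ball_lt_top measure_ball_lt_top
  have : IsFiniteMeasure ((volume : Measure (ℂ × ℂ)).restrict (B₁ ×ˢ B₂)) :=
    ⟨by rw [Measure.restrict_apply_univ]; exact hfin⟩
  have hV : ((volume : Measure (ℂ × ℂ)).restrict (B₁ ×ˢ B₂)).real univ ≤ Q ^ 33 * m ^ 2 := by
    rw [measureReal_def, Measure.restrict_apply_univ, Measure.volume_eq_prod, Measure.prod_prod,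
      ENNReal.toReal_mul]
    have e1 := ball_vol (Q ^ 5 * m) (by positivity)
    have e2 := ball_vol (Q ^ 11) (by positivity)
    rw [measureReal_def] at e1 e2
    rw [e1, e2]
    exact vol_box h16 hm
  -- the kernel
  have hKm := AA_meas σ m t₁ ℓ f hf
  set K : ℝ × (ℂ × ℂ) → ℂ := ({z | z.1 ∈ Icc t₂ (t₂ + ℓ)} : Set (ℝ × (ℂ × ℂ))).indicator
    (fun z => AA σ m t₁ ℓ z.2.1 z.1 (Fp f z.2.1) z.2.2) with hK
  have hKK : Measurable K :=
    hKm.indicator (measurable_fst measurableSet_Icc)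
  have hKin : ∀ s ∈ Icc t₂ (t₂ + ℓ), ∀ ω : ℂ × ℂ,
      K (s, ω) = AA σ m t₁ ℓ ω.1 s (Fp f ω.1) ω.2 := by
    intro s hs ω
    rw [hK, indicator_of_mem (by exact hs)]
  have hKb : ∀ z, ‖K z‖ ≤ β := by
    intro z
    by_cases hz : z.1 ∈ Icc t₂ (t₂ + ℓ)
    · have := hKin z.1 hz z.2
      rw [show K z = K (z.1, z.2) from rfl, this]
      exact AA_norm P hm (hS _ hz) _ (Fp_le hf _) _
    · rw [hK, indicator_of_notMem (by exact hz), norm_zero]
      exact hβ0.le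
  have hGm : Measurable (fun ω : ℂ × ℂ => conj (Fp f ω.1 ω.2)) :=
    Complex.continuous_conj.measurable.comp (Fp_meas hf)
  have hG1 : ∀ ω : ℂ × ℂ, ‖conj (Fp f ω.1 ω.2)‖ ≤ 1 := by
    intro ω
    rw [RCLike.norm_conj]
    exact Fp_le hf _ _
  -- the hypothesis
  have H1 : 1 / (Q * m ^ 2) ≤ ‖∫ s in t₂..(t₂ + ℓ), ∫ ω : ℂ × ℂ,
      conj (Fp f ω.1 ω.2) * K (s, ω) ∂(volume.restrict (B₁ ×ˢ B₂))‖ := by
    rw [hyp_conv P hm hm1 f hf hR hℓ hS, norm_mul, Complex.norm_real,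
      Real.norm_of_nonneg (by positivity)] at H
    have e : ∫ s in t₂..(t₂ + ℓ), ∫ ω : ℂ × ℂ,
        conj (Fp f ω.1 ω.2) * K (s, ω) ∂(volume.restrict (B₁ ×ˢ B₂)) =
        ∫ s in t₂..(t₂ + ℓ), ∫ ω : ℂ × ℂ, conj (Fp f ω.1 ω.2) *
          AA σ m t₁ ℓ ω.1 s (Fp f ω.1) ω.2 ∂(volume.restrict (B₁ ×ˢ B₂)) := by
      apply intervalIntegral.integral_congr
      intro s hs
      rw [uIcc_of_le (by linarith)] at hs
      simp only [hKin s hs]
    rw [e]
    rw [div_mul_eq_div_div, div_le_iff₀ (by positivity), mul_comm]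
    exact H
  obtain ⟨s, u, hs, hu, hsu, hbig⟩ := vdc (volume.restrict (B₁ ×ˢ B₂)) K hKK β hKb
    (fun ω : ℂ × ℂ => conj (Fp f ω.1 ω.2)) hGm hG1 t₂ ℓ (1 / Q ^ 77) (1 / (Q * m ^ 2))
    (Q ^ 33 * m ^ 2) hℓ hℓ1 (by positivity) (by positivity) hV (by positivity) H1
    (by
      have e1 : 4 * (1 / Q ^ 77) * β ^ 2 * (Q ^ 33 * m ^ 2) ^ 2 = 4 / (Q ^ 3 * m ^ 4) := by
        rw [hβ]; field_simp
      have e2 : (1 / (Q * m ^ 2)) ^ 2 = 1 / (Q ^ 2 * m ^ 4) := by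
        field_simp
      rw [e1, e2, div_lt_div_iff₀ (by positivity) (by positivity)]
      have e3 : 1 * (Q ^ 3 * m ^ 4) = Q * (Q ^ 2 * m ^ 4) := by ring
      rw [e3]
      apply mul_lt_mul_of_pos_right _ (by positivity)
      linarith)
  -- the function of `α`
  set J : ℂ → ℂ := fun α => ∫ p, AA σ m t₁ ℓ α s (Fp f α) p * conj (AA σ m t₁ ℓ α u (Fp f α) p)
    with hJ
  have hb : R + Q ^ 10 < Q ^ 11 := by
    have h1 := P.pow_le (show 1 ≤ 10 by norm_num)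
    rw [pow_one] at h1
    have h2 : 0 < Q ^ 10 := by positivity
    have h3 : Q ^ 11 = Q ^ 10 * Q := by ring
    rw [h3]
    have h4 := mul_le_mul_of_nonneg_left h16 h2.le
    linarith
  have hJe : ∫ ω, K (s, ω) * conj (K (u, ω)) ∂(volume.restrict (B₁ ×ˢ B₂)) =
      ∫ α in B₁, J α := by
    have hm1' : Measurable (fun ω : ℂ × ℂ => K (s, ω) * conj (K (u, ω))) :=
      (hKK.comp (measurable_const.prodMk measurable_id)).mul
        (Complex.continuous_conj.measurable.comp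
          (hKK.comp (measurable_const.prodMk measurable_id)))
    have hi : IntegrableOn (fun ω : ℂ × ℂ => K (s, ω) * conj (K (u, ω))) (B₁ ×ˢ B₂)
        ((volume : Measure ℂ).prod volume) := by
      have : IntegrableOn (fun ω : ℂ × ℂ => K (s, ω) * conj (K (u, ω))) (B₁ ×ˢ B₂) volume :=
        Measure.integrableOn_of_bounded (M := β * β) hfin.ne hm1'.aestronglyMeasurable
          (Filter.Eventually.of_forall fun ω => by
            rw [norm_mul, RCLike.norm_conj]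
            exact mul_le_mul (hKb _) (hKb _) (norm_nonneg _) hβ0.le)
      exact this
    have e1 : ∫ ω, K (s, ω) * conj (K (u, ω)) ∂(volume.restrict (B₁ ×ˢ B₂)) =
        ∫ α in B₁, ∫ p in B₂, K (s, (α, p)) * conj (K (u, (α, p))) := by
      rw [Measure.volume_eq_prod]
      exact setIntegral_prod _ hi
    rw [e1]
    congr 1
    funext α
    simp only [hKin s hs, hKin u hu]
    rw [hJ]
    apply setIntegral_eq_integral_of_forall_compl_eq_zero
    intro p hp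
    rw [hB₂, Metric.mem_ball, dist_zero_right, not_lt] at hp
    rw [AA_supp P hm hm1 (hS s hs) α (Fp_supp hf α) p (by linarith), zero_mul]
  rw [hJe] at hbig
  set N : ℂ → ℝ := fun α => ∫ p, ‖Sq w (Fp f α) p‖ with hN
  have hNi : IntegrableOn N B₁ := by
    have := sqm_intOn w hw0 hf (Q ^ 5 * m) 1 (by norm_num)
    simpa only [pow_one] using this
  have hN0 : ∀ α, 0 ≤ N α := fun α => integral_nonneg fun p => norm_nonneg _
  have hFmα : ∀ α, Measurable (Fp f α) := fun α =>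
    (Fp_meas hf).comp (measurable_const.prodMk measurable_id)
  -- pointwise bounds
  have hJ1 : ∀ α, ‖J α‖ ≤ Q ^ 31 / m ^ 8 := by
    intro α
    have hA := int_of_ball (AA_meas1 σ m t₁ ℓ α s (hFmα α)) (Q ^ 11) β (by positivity)
      (AA_norm P hm (hS s hs) α (Fp_le hf α))
      (fun p hp => AA_supp P hm hm1 (hS s hs) α (Fp_supp hf α) p (by linarith))
    have hi : Integrable (fun p => AA σ m t₁ ℓ α s (Fp f α) p *
        conj (AA σ m t₁ ℓ α u (Fp f α) p)) := by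
      refine Integrable.mul_bdd (c := β) hA.1
        (Complex.continuous_conj.measurable.comp
          (AA_meas1 σ m t₁ ℓ α u (hFmα α))).aestronglyMeasurable
        (Filter.Eventually.of_forall fun p => ?_)
      simp only [RCLike.norm_conj]
      exact AA_norm P hm (hS u hu) α (Fp_le hf α) p
    refine (norm_integral_le_integral_norm _).trans ?_
    calc ∫ p, ‖AA σ m t₁ ℓ α s (Fp f α) p * conj (AA σ m t₁ ℓ α u (Fp f α) p)‖ ≤
          ∫ p, β * ‖AA σ m t₁ ℓ α s (Fp f α) p‖ := by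
          apply integral_mono hi.norm (hA.1.norm.const_mul β)
          intro p
          change ‖AA σ m t₁ ℓ α s (Fp f α) p * conj (AA σ m t₁ ℓ α u (Fp f α) p)‖ ≤
            β * ‖AA σ m t₁ ℓ α s (Fp f α) p‖
          rw [norm_mul, RCLike.norm_conj, mul_comm]
          exact mul_le_mul_of_nonneg_right (AA_norm P hm (hS u hu) α (Fp_le hf α) p)
            (norm_nonneg _)
      _ = β * ∫ p, ‖AA σ m t₁ ℓ α s (Fp f α) p‖ := integral_const_mul _ _
      _ ≤ β * (β * (Real.pi * (Q ^ 11) ^ 2)) := mul_le_mul_of_nonneg_left hA.2 hβ0.le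
      _ = Q ^ 30 * Real.pi / m ^ 8 := by rw [hβ]; field_simp
      _ ≤ _ := by
          apply div_le_div_of_nonneg_right _ (by positivity)
          have e : Q ^ 31 = Q ^ 30 * Q := by ring
          rw [e]
          apply mul_le_mul_of_nonneg_left _ (by positivity)
          linarith [Real.pi_le_four]
  have hJ2 : ∀ α, m / Q ^ 34 ≤ ‖α‖ → ‖J α‖ ≤ Q ^ 8 / m ^ 8 * N α + 1 / (Q ^ 48 * m ^ 8) := by
    intro α hα
    have hα0 : 0 < ‖α‖ := lt_of_lt_of_le (by positivity) hα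
    have h1 := per_alpha P hm hm1 (hS s hs) (hS u hu) hR (hFmα α) (Fp_le hf α) (Fp_supp hf α)
      (by positivity : (0 : ℝ) < 1 / Q ^ 77) hsu (hSum s hs u hu) hw0 (norm_pos_iff.1 hα0)
    refine h1.trans (add_le_add le_rfl ?_)
    calc Q ^ 61 / (m ^ 8 * (1 / Q ^ 77)) * (w / ‖α‖) ≤
          Q ^ 61 / (m ^ 8 * (1 / Q ^ 77)) * (w / (m / Q ^ 34)) := by gcongr
      _ = _ := by rw [hw]; field_simp
  -- integration
  set S := Metric.ball (0 : ℂ) (m / Q ^ 34) with hSdef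
  set g : ℂ → ℝ := fun α => Q ^ 8 / m ^ 8 * N α + (1 / (Q ^ 48 * m ^ 8) +
    S.indicator (fun _ => Q ^ 31 / m ^ 8) α) with hg
  have hfin1 : volume B₁ ≠ ⊤ := measure_ball_lt_top.ne
  have i1 : IntegrableOn (fun α => Q ^ 8 / m ^ 8 * N α) B₁ := hNi.const_mul _
  have i2 : IntegrableOn (fun _ : ℂ => 1 / (Q ^ 48 * m ^ 8)) B₁ := integrableOn_const hfin1
  have i3 : IntegrableOn (fun α : ℂ => S.indicator (fun _ => Q ^ 31 / m ^ 8) α) B₁ := by
    have : IntegrableOn (fun _ : ℂ => Q ^ 31 / m ^ 8) B₁ := integrableOn_const hfin1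
    exact this.indicator measurableSet_ball
  have hgi : IntegrableOn g B₁ := i1.add (i2.add i3)
  have hle : ‖∫ α in B₁, J α‖ ≤ ∫ α in B₁, g α := by
    apply norm_integral_le_of_norm_le hgi
    refine Filter.Eventually.of_forall fun α => ?_
    have hind : 0 ≤ S.indicator (fun _ => Q ^ 31 / m ^ 8) α :=
      indicator_nonneg (fun _ _ => by positivity) _
    rcases lt_or_ge ‖α‖ (m / Q ^ 34) with hα | hα
    · have hmem : α ∈ S := by rw [hSdef, Metric.mem_ball, dist_zero_right]; exact hα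
      have e : S.indicator (fun _ => Q ^ 31 / m ^ 8) α = Q ^ 31 / m ^ 8 :=
        indicator_of_mem hmem _
      have h1 : 0 ≤ Q ^ 8 / m ^ 8 * N α := mul_nonneg (by positivity) (hN0 α)
      have h2 : 0 ≤ 1 / (Q ^ 48 * m ^ 8) := by positivity
      rw [hg]
      simp only
      rw [e]
      linarith [hJ1 α]
    · have h1 := hJ2 α hα
      rw [hg]
      simp only
      linarith
  have hgint : ∫ α in B₁, g α ≤ Q ^ 8 / m ^ 8 * (∫ α in B₁, N α) +
      (1 / (Q ^ 48 * m ^ 8) * (Real.pi * (Q ^ 5 * m) ^ 2) +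
        Q ^ 31 / m ^ 8 * (Real.pi * (m / Q ^ 34) ^ 2)) := by
    have e1 : ∫ α in B₁, g α = (∫ α in B₁, Q ^ 8 / m ^ 8 * N α) +
        ((∫ _α in B₁, 1 / (Q ^ 48 * m ^ 8)) +
          ∫ α in B₁, S.indicator (fun _ => Q ^ 31 / m ^ 8) α) := by
      have e0 : ∫ α in B₁, g α = (∫ α in B₁, Q ^ 8 / m ^ 8 * N α) +
          ∫ α in B₁, (1 / (Q ^ 48 * m ^ 8) + S.indicator (fun _ => Q ^ 31 / m ^ 8) α) :=
        integral_add i1 (i2.add i3)
      have e00 : ∫ α in B₁, (1 / (Q ^ 48 * m ^ 8) + S.indicator (fun _ => Q ^ 31 / m ^ 8) α) =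
          (∫ _α in B₁, 1 / (Q ^ 48 * m ^ 8)) +
            ∫ α in B₁, S.indicator (fun _ => Q ^ 31 / m ^ 8) α := integral_add i2 i3
      rw [e0, e00]
    rw [e1, integral_const_mul, setIntegral_const, ball_vol _ (by positivity), smul_eq_mul,
      mul_comm (Real.pi * (Q ^ 5 * m) ^ 2)]
    refine add_le_add le_rfl (add_le_add le_rfl ?_)
    rw [integral_indicator measurableSet_ball, setIntegral_const, smul_eq_mul]
    have hle2 : (volume.restrict B₁).real S ≤ volume.real S := by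
      rw [measureReal_def, measureReal_def]
      exact ENNReal.toReal_mono measure_ball_lt_top.ne (Measure.restrict_apply_le _ _)
    rw [ball_vol _ (by positivity)] at hle2
    rw [mul_comm]
    exact mul_le_mul_of_nonneg_left hle2 (by positivity)
  have hcs := sq_cs w hw0 hf (Q ^ 5 * m) (Q ^ 11) (1 / (8 * Q ^ 76)) (by positivity)
    (by
      have h1 : 2 * w ≤ Q ^ 10 := by
        have : w ≤ 1 := by
          rw [hw, div_le_one (by positivity)]
          exact hm1.trans (P.one_le_pow _)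
        have := P.pow_le (show 1 ≤ 10 by norm_num)
        rw [pow_one] at this
        linarith
      linarith) (by positivity) (by positivity)
  exact final_split h16 hm ((hbig.trans hle).trans hgint) hcs (vol_box h16 hm)

end Pool.Agent.H42.Pl
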