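import Pool.Agent.H42.Pl.Sub

/-!
# Bounds for the weight `NN`
-/

open MeasureTheory
open scoped ComplexConjugate

namespace Pool.Agent.H42.Pl

open Pool.Agent.H67.Pl

theorem lip_mul {p p' q q' a b A B d : ℝ} (h1 : |p - p'| ≤ a * d) (h2 : |q - q'| ≤ b * d)
    (hq : |q| ≤ B) (hp : |p'| ≤ A) (hd : 0 ≤ d) (ha : 0 ≤ a) (hA : 0 ≤ A) :
    |p * q - p' * q'| ≤ (a * B + A * b) * d := by
  have e : p * q - p' * q' = (p - p') * q + p' * (q - q') := by ring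
  rw [e]
  refine (abs_add_le _ _).trans ?_
  rw [abs_mul, abs_mul]
  have := mul_le_mul h1 hq (abs_nonneg _) (by positivity)
  have := mul_le_mul hp h2 (abs_nonneg _) hA
  nlinarith

/-- the parameter bounds -/
structure Par (σ : ℂ) (Q : ℝ) : Prop where
  hQ : 16 ≤ Q
  him : 1 / Q ≤ |σ.im|
  hre : 1 / Q ≤ |σ.re|
  hσ : ‖σ‖ ≤ Q

namespace Par

variable {σ : ℂ} {Q : ℝ} (P : Par σ Q)

include P

theorem pos : 0 < Q := by linarith [P.hQ]

theorem pow_le {a b : ℕ} (h : a ≤ b) : Q ^ a ≤ Q ^ b :=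
  pow_le_pow_right₀ (by linarith [P.hQ]) h

theorem one_le_pow (a : ℕ) : 1 ≤ Q ^ a := one_le_pow₀ (by linarith [P.hQ])

theorem norm_ge : 1 / Q ≤ ‖σ‖ := P.him.trans (Complex.abs_im_le_norm σ)

theorem norm_pos : 0 < ‖σ‖ := lt_of_lt_of_le (by have := P.pos; positivity) P.norm_ge

theorem inv_norm : 1 / ‖σ‖ ≤ Q := by
  have h := P.norm_ge
  have := P.pos
  have := P.norm_pos
  rw [div_le_iff₀ ‹_›]
  rw [div_le_iff₀ ‹_›] at h
  linarith

theorem im_ne : σ.im ≠ 0 := by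
  have h := P.him
  have := P.pos
  intro h0
  rw [h0, abs_zero] at h
  have : 0 < 1 / Q := by positivity
  linarith

theorem norm_one_add_le {s : ℝ} (hs : |s| ≤ Q) : ‖1 + s * σ‖ ≤ 2 * Q ^ 2 := by
  have h0 := P.pos
  have h1 := P.hQ
  calc ‖1 + s * σ‖ ≤ ‖(1 : ℂ)‖ + ‖(s : ℂ) * σ‖ := norm_add_le _ _
    _ = 1 + |s| * ‖σ‖ := by rw [norm_one, norm_mul, Complex.norm_real, Real.norm_eq_abs]
    _ ≤ 1 + Q * Q := by gcongr; exact P.hσ
    _ ≤ _ := by nlinarith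

theorem norm_one_add_ge (s : ℝ) : 1 / Q ^ 2 ≤ ‖1 + s * σ‖ := by
  have h0 := P.pos
  have h1 : ‖(1 + s * σ) * conj σ‖ = ‖1 + s * σ‖ * ‖σ‖ := by
    rw [norm_mul, RCLike.norm_conj]
  have h2 : |((1 + s * σ) * conj σ).im| = |σ.im| := by
    have : ((1 + s * σ) * conj σ).im = -σ.im := by
      simp
      ring
    rw [this, abs_neg]
  have h3 := Complex.abs_im_le_norm ((1 + s * σ) * conj σ)
  rw [h1, h2] at h3
  have h4 : 1 / Q ≤ ‖1 + s * σ‖ * Q :=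
    P.him.trans (h3.trans (mul_le_mul_of_nonneg_left P.hσ (norm_nonneg _)))
  rw [div_le_iff₀ (by positivity)]
  rw [div_le_iff₀ h0] at h4
  calc 1 ≤ ‖1 + s * σ‖ * Q * Q := h4
    _ = _ := by ring

theorem NN_nonneg {m : ℝ} (hm : 0 < m) (r τ s : ℝ) : 0 ≤ NN σ m r τ s := by
  have := P.norm_pos
  unfold NN
  positivity

theorem NN_le {m : ℝ} (hm : 0 < m) {r τ s : ℝ} (hr : 0 ≤ r) (h : 1 / Q ≤ |τ - s|) :
    NN σ m r τ s ≤ Q ^ 4 / m ^ 4 := by
  have h0 := P.pos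
  have hp := P.norm_pos
  have hd : 0 < |τ - s| := lt_of_lt_of_le (by positivity) h
  have k : ∀ X : ℝ, 0 ≤ X → max 0 (m - r * X) / m ^ 3 ≤ 1 / m ^ 2 := by
    intro X hX
    have : max 0 (m - r * X) ≤ m := max_le hm.le (by have := mul_nonneg hr hX; linarith)
    calc _ ≤ m / m ^ 3 := by gcongr
      _ = _ := by field_simp
  have hu : 1 / |τ - s| ≤ Q := by
    rw [div_le_iff₀ hd]; rw [div_le_iff₀ h0] at h; linarith
  have hW : 1 / ((τ - s) ^ 2 * ‖σ‖ ^ 2) ≤ Q ^ 4 := by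
    have e : 1 / ((τ - s) ^ 2 * ‖σ‖ ^ 2) = (1 / |τ - s|) ^ 2 * (1 / ‖σ‖) ^ 2 := by
      rw [← sq_abs (τ - s)]; field_simp
    rw [e]
    calc _ ≤ Q ^ 2 * Q ^ 2 := mul_le_mul (pow_le_pow_left₀ (by positivity) hu 2)
          (pow_le_pow_left₀ (by positivity) P.inv_norm 2) (by positivity) (by positivity)
      _ = _ := by ring
  unfold NN
  calc _ ≤ Q ^ 4 * (1 / m ^ 2) * (1 / m ^ 2) := by
        apply mul_le_mul (mul_le_mul hW (k _ (by positivity)) (by positivity) (by positivity))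
          (k _ (by positivity)) (by positivity) (by positivity)
    _ = _ := by field_simp

theorem NN_zero {m : ℝ} (hm : 0 < m) {r τ s : ℝ} (hr : Q ^ 5 * m ≤ r) (h : 1 / Q ≤ |τ - s|)
    (hτ : |τ| ≤ Q) (hs : |s| ≤ Q) : NN σ m r τ s = 0 := by
  have h0 := P.pos
  have h16 := P.hQ
  have hp := P.norm_pos
  have hd : 0 < |τ - s| := lt_of_lt_of_le (by positivity) h
  have hd2 : |τ - s| ≤ 2 * Q := (abs_sub _ _).trans (by linarith)
  have hX : 1 / Q ^ 5 ≤ ‖1 + s * σ‖ * (1 + |τ|) / (|τ - s| * ‖σ‖) := by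
    calc 1 / Q ^ 5 ≤ (1 / Q ^ 2) * 1 / (2 * Q * Q) := by
          rw [div_le_div_iff₀ (by positivity) (by positivity)]
          field_simp
          nlinarith
      _ ≤ _ := by
          apply div_le_div₀ (by positivity) _ (by positivity) _
          · exact mul_le_mul (P.norm_one_add_ge s) (by linarith [abs_nonneg τ]) (by norm_num)
              (norm_nonneg _)
          · exact mul_le_mul hd2 P.hσ (norm_nonneg _) (by positivity)
  have hz : max 0 (m - r * (‖1 + s * σ‖ * (1 + |τ|) / (|τ - s| * ‖σ‖))) = 0 := by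
    apply max_eq_left
    have h1 : Q ^ 5 * m * (1 / Q ^ 5) ≤ r * (‖1 + s * σ‖ * (1 + |τ|) / (|τ - s| * ‖σ‖)) :=
      mul_le_mul hr hX (by positivity) (le_trans (by positivity) hr)
    have h2 : Q ^ 5 * m * (1 / Q ^ 5) = m := by field_simp
    linarith
  unfold NN
  rw [hz]
  simp

theorem NN_lip {m : ℝ} (hm : 0 < m) {r τ τ' s : ℝ} (hr : 0 ≤ r) (h : 1 / Q ≤ |τ - s|)
    (h' : 1 / Q ≤ |τ' - s|) (hτ : |τ| ≤ Q) (hτ' : |τ'| ≤ Q) (hs : |s| ≤ Q) :
    |NN σ m r τ s - NN σ m r τ' s| ≤ Q ^ 16 / m ^ 4 * |τ - τ'| := by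
  have h0 := P.pos
  have h16 := P.hQ
  have hp := P.norm_pos
  have hd : 0 < |τ - s| := lt_of_lt_of_le (by positivity) h
  have hd' : 0 < |τ' - s| := lt_of_lt_of_le (by positivity) h'
  rcases le_total (Q ^ 5 * m) r with hrl | hrl
  · rw [P.NN_zero hm hrl h hτ hs, P.NN_zero hm hrl h' hτ' hs, sub_zero, abs_zero]
    positivity
  set d := |τ - τ'| with hdd
  have hd0 : 0 ≤ d := abs_nonneg _
  set u := 1 / |τ - s| with hu
  set u' := 1 / |τ' - s| with hu'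
  have hu1 : u ≤ Q := by
    rw [hu, div_le_iff₀ hd]; rw [div_le_iff₀ h0] at h; linarith
  have hu1' : u' ≤ Q := by
    rw [hu', div_le_iff₀ hd']; rw [div_le_iff₀ h0] at h'; linarith
  have hu0 : 0 < u := by positivity
  have hu0' : 0 < u' := by positivity
  have hu2 : |u - u'| ≤ Q ^ 2 * d := by
    have e : u - u' = (|τ' - s| - |τ - s|) * (u * u') := by
      rw [hu, hu']; field_simp
    rw [e, abs_mul, abs_of_pos (mul_pos hu0 hu0')]
    have e1 : |(|τ' - s| - |τ - s|)| ≤ d := by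
      refine (abs_abs_sub_abs_le _ _).trans (le_of_eq ?_)
      rw [hdd, abs_sub_comm τ τ']; congr 1; ring
    calc _ ≤ d * (Q * Q) := mul_le_mul e1 (mul_le_mul hu1 hu1' hu0'.le h0.le) (by positivity) hd0
      _ = _ := by ring
  -- the first factor
  have hA : |1 + |τ| - (1 + |τ'|)| ≤ 1 * d := by
    have : 1 + |τ| - (1 + |τ'|) = |τ| - |τ'| := by ring
    rw [this, one_mul]; exact abs_abs_sub_abs_le _ _
  have hX1 : |(1 + |τ|) * u - (1 + |τ'|) * u'| ≤ (1 * Q + 2 * Q * Q ^ 2) * d :=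
    lip_mul hA hu2 (by rw [abs_of_pos hu0]; exact hu1)
      (by rw [abs_of_nonneg (by positivity)]; linarith) hd0 zero_le_one (by positivity)
  have hB : |‖1 + τ * σ‖ - ‖1 + τ' * σ‖| ≤ Q * d := by
    refine (abs_norm_sub_norm_le _ _).trans ?_
    have e : (1 + τ * σ) - (1 + τ' * σ) = ((τ - τ' : ℝ) : ℂ) * σ := by push_cast; ring
    rw [e, norm_mul, Complex.norm_real, Real.norm_eq_abs, mul_comm]
    exact mul_le_mul_of_nonneg_right P.hσ hd0
  have hY1 : |‖1 + τ * σ‖ * u - ‖1 + τ' * σ‖ * u'| ≤ (Q * Q + 2 * Q ^ 2 * Q ^ 2) * d :=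
    lip_mul hB hu2 (by rw [abs_of_pos hu0]; exact hu1)
      (by rw [abs_of_nonneg (norm_nonneg _)]; exact P.norm_one_add_le hτ') hd0 h0.le
      (by positivity)
  -- general facts about the truncated factors
  have kk : ∀ X X' L : ℝ, |X - X'| ≤ L * d → |max 0 (m - r * X) / m ^ 3 -
      max 0 (m - r * X') / m ^ 3| ≤ (Q ^ 5 * L / m ^ 2) * d := by
    intro X X' L hX
    rw [← sub_div, abs_div, abs_of_pos (by positivity : (0 : ℝ) < m ^ 3)]
    have e1 : |max 0 (m - r * X) - max 0 (m - r * X')| ≤ r * |X - X'| := by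
      rw [max_comm 0 (m - r * X), max_comm 0 (m - r * X')]
      refine (abs_max_sub_max_le_abs _ _ _).trans (le_of_eq ?_)
      have : m - r * X - (m - r * X') = -(r * (X - X')) := by ring
      rw [this, abs_neg, abs_mul, abs_of_nonneg hr]
    have e2 : r * |X - X'| ≤ Q ^ 5 * m * (L * d) :=
      mul_le_mul hrl hX (abs_nonneg _) (by positivity)
    calc _ ≤ Q ^ 5 * m * (L * d) / m ^ 3 := by
          apply div_le_div_of_nonneg_right (e1.trans e2) (by positivity)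
      _ = _ := by field_simp
  have kb : ∀ X : ℝ, 0 ≤ X → |max 0 (m - r * X) / m ^ 3| ≤ 1 / m ^ 2 := by
    intro X hX
    rw [abs_of_nonneg (by positivity)]
    have : max 0 (m - r * X) ≤ m := max_le hm.le (by have := mul_nonneg hr hX; linarith)
    calc _ ≤ m / m ^ 3 := by gcongr
      _ = _ := by field_simp
  set v := 1 / ‖σ‖ with hv
  have hv1 : v ≤ Q := P.inv_norm
  have hv0 : 0 < v := by positivity
  -- the two arguments
  have hXX : |‖1 + s * σ‖ * (1 + |τ|) / (|τ - s| * ‖σ‖) -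
      ‖1 + s * σ‖ * (1 + |τ'|) / (|τ' - s| * ‖σ‖)| ≤ (6 * Q ^ 6) * d := by
    have e : ‖1 + s * σ‖ * (1 + |τ|) / (|τ - s| * ‖σ‖) -
        ‖1 + s * σ‖ * (1 + |τ'|) / (|τ' - s| * ‖σ‖) =
        (‖1 + s * σ‖ * v) * ((1 + |τ|) * u - (1 + |τ'|) * u') := by
      rw [hu, hu', hv]; field_simp
    rw [e, abs_mul, abs_of_nonneg (by positivity : (0 : ℝ) ≤ ‖1 + s * σ‖ * v)]
    calc _ ≤ (2 * Q ^ 2 * Q) * ((1 * Q + 2 * Q * Q ^ 2) * d) :=
          mul_le_mul (mul_le_mul (P.norm_one_add_le hs) hv1 hv0.le (by positivity)) hX1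
            (abs_nonneg _) (by positivity)
      _ = (2 * Q ^ 4 + 4 * Q ^ 6) * d := by ring
      _ ≤ _ := by
          apply mul_le_mul_of_nonneg_right _ hd0
          have := P.pow_le (show 4 ≤ 6 by norm_num)
          linarith
  have hYY : |‖1 + τ * σ‖ * (1 + |s|) / (|τ - s| * ‖σ‖) -
      ‖1 + τ' * σ‖ * (1 + |s|) / (|τ' - s| * ‖σ‖)| ≤ (6 * Q ^ 6) * d := by
    have e : ‖1 + τ * σ‖ * (1 + |s|) / (|τ - s| * ‖σ‖) -
        ‖1 + τ' * σ‖ * (1 + |s|) / (|τ' - s| * ‖σ‖) =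
        ((1 + |s|) * v) * (‖1 + τ * σ‖ * u - ‖1 + τ' * σ‖ * u') := by
      rw [hu, hu', hv]; field_simp
    rw [e, abs_mul, abs_of_nonneg (by positivity : (0 : ℝ) ≤ (1 + |s|) * v)]
    calc _ ≤ (2 * Q * Q) * ((Q * Q + 2 * Q ^ 2 * Q ^ 2) * d) :=
          mul_le_mul (mul_le_mul (by linarith) hv1 hv0.le (by positivity)) hY1
            (abs_nonneg _) (by positivity)
      _ = (2 * Q ^ 4 + 4 * Q ^ 6) * d := by ring
      _ ≤ _ := by
          apply mul_le_mul_of_nonneg_right _ hd0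
          have := P.pow_le (show 4 ≤ 6 by norm_num)
          linarith
  have hW : |1 / ((τ - s) ^ 2 * ‖σ‖ ^ 2) - 1 / ((τ' - s) ^ 2 * ‖σ‖ ^ 2)| ≤ (2 * Q ^ 5) * d := by
    have e : 1 / ((τ - s) ^ 2 * ‖σ‖ ^ 2) - 1 / ((τ' - s) ^ 2 * ‖σ‖ ^ 2) =
        v ^ 2 * (u * u - u' * u') := by
      rw [← sq_abs (τ - s), ← sq_abs (τ' - s), hu, hu', hv]; field_simp
    rw [e, abs_mul, abs_of_nonneg (by positivity : (0 : ℝ) ≤ v ^ 2)]
    have : |u * u - u' * u'| ≤ (Q ^ 2 * Q + Q * Q ^ 2) * d :=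
      lip_mul hu2 hu2 (by rw [abs_of_pos hu0]; exact hu1)
      (by rw [abs_of_pos hu0']; exact hu1') hd0 (by positivity) h0.le
    calc _ ≤ Q ^ 2 * ((Q ^ 2 * Q + Q * Q ^ 2) * d) :=
          mul_le_mul (pow_le_pow_left₀ hv0.le hv1 2) this (abs_nonneg _) (by positivity)
      _ = _ := by ring
  have hWb : |1 / ((τ' - s) ^ 2 * ‖σ‖ ^ 2)| ≤ Q ^ 4 := by
    have e : 1 / ((τ' - s) ^ 2 * ‖σ‖ ^ 2) = u' ^ 2 * v ^ 2 := by
      rw [← sq_abs (τ' - s), hu', hv]; field_simp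
    rw [e, abs_of_nonneg (by positivity)]
    calc _ ≤ Q ^ 2 * Q ^ 2 := mul_le_mul (pow_le_pow_left₀ hu0'.le hu1' 2)
          (pow_le_pow_left₀ hv0.le hv1 2) (by positivity) (by positivity)
      _ = _ := by ring
  have h1 := lip_mul hW (kk _ _ _ hXX) (kb _ (by positivity)) hWb hd0 (by positivity)
    (by positivity)
  have hWP : |1 / ((τ' - s) ^ 2 * ‖σ‖ ^ 2) *
      (max 0 (m - r * (‖1 + s * σ‖ * (1 + |τ'|) / (|τ' - s| * ‖σ‖))) / m ^ 3)| ≤
      Q ^ 4 * (1 / m ^ 2) := by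
    rw [abs_mul]
    exact mul_le_mul hWb (kb _ (by positivity)) (abs_nonneg _) (by positivity)
  have h2 := lip_mul h1 (kk _ _ _ hYY) (kb _ (by positivity)) hWP hd0 (by positivity)
    (by positivity)
  unfold NN
  refine h2.trans ?_
  apply mul_le_mul_of_nonneg_right _ hd0
  have e3 : (2 * Q ^ 5 * (1 / m ^ 2) + Q ^ 4 * (Q ^ 5 * (6 * Q ^ 6) / m ^ 2)) * (1 / m ^ 2) +
      Q ^ 4 * (1 / m ^ 2) * (Q ^ 5 * (6 * Q ^ 6) / m ^ 2) =
      (2 * Q ^ 5 + 12 * Q ^ 15) / m ^ 4 := by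
    field_simp
    ring
  rw [e3]
  apply div_le_div_of_nonneg_right _ (by positivity)
  have h3 := P.pow_le (show 5 ≤ 15 by norm_num)
  have h4 : Q ^ 16 = Q * Q ^ 15 := by ring
  have h5 : 0 < Q ^ 15 := by positivity
  nlinarith

end Par

end Pool.Agent.H42.Pl
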