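import Mathlib

/-!
# Smoothing along the hyperbola `1 / (τ - s)`
-/

open MeasureTheory Set

namespace Pool.Agent.H42.Pl

/-- the `L¹` modulus of continuity of a Lipschitz function on an interval -/
theorem l1_mod (n : ℝ → ℝ) (c d S Λ t : ℝ) (hcd : c ≤ d) (hS : 0 ≤ S) (hΛ : 0 ≤ Λ)
    (hn : ∀ x ∈ Ioo c d, |n x| ≤ S)
    (hL : ∀ x ∈ Ioo c d, ∀ y ∈ Ioo c d, |n x - n y| ≤ Λ * |x - y|) :
    ∫ x, |(Ioo c d).indicator n (x - t) - (Ioo c d).indicator n x| ≤
      (Λ * (d - c) + 4 * S) * |t| := by
  set E : Set ℝ := Icc (c - |t|) (c + |t|) ∪ Icc (d - |t|) (d + |t|) with hE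
  have hEm : MeasurableSet E := measurableSet_Icc.union measurableSet_Icc
  have key : ∀ x, |(Ioo c d).indicator n (x - t) - (Ioo c d).indicator n x| ≤
      (Ioo c d).indicator (fun _ => Λ * |t|) x + E.indicator (fun _ => S) x := by
    intro x
    have ht1 := le_abs_self t
    have ht2 := neg_abs_le t
    have hpos1 : 0 ≤ (Ioo c d).indicator (fun _ => Λ * |t|) x :=
      indicator_nonneg (fun _ _ => by positivity) _
    have hpos2 : 0 ≤ E.indicator (fun _ => S) x := indicator_nonneg (fun _ _ => hS) _
    by_cases h1 : x ∈ Ioo c d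
    · by_cases h2 : x - t ∈ Ioo c d
      · rw [indicator_of_mem h1, indicator_of_mem h2, indicator_of_mem h1]
        have := hL _ h2 _ h1
        have e : x - t - x = -t := by ring
        rw [e, abs_neg] at this
        linarith
      · rw [indicator_of_mem h1, indicator_of_notMem h2, zero_sub, abs_neg]
        have hxE : x ∈ E := by
          by_contra hx
          apply h2
          simp only [hE, mem_union, mem_Icc, not_or, not_and, not_le] at hx
          have := hx.1
          have := hx.2
          constructor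
          · by_contra h3
            push Not at h3
            have h4 := hx.1 (by linarith [h1.1])
            linarith
          · by_contra h3
            push Not at h3
            have h4 := hx.2 (by linarith)
            linarith [h1.2, abs_nonneg t]
        rw [indicator_of_mem hxE]
        linarith [hn x h1]
    · by_cases h2 : x - t ∈ Ioo c d
      · rw [indicator_of_notMem h1, indicator_of_mem h2, sub_zero]
        have hxE : x ∈ E := by
          by_contra hx
          apply h1
          simp only [hE, mem_union, mem_Icc, not_or, not_and, not_le] at hx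
          constructor
          · by_contra h3
            push Not at h3
            have h4 := hx.1 (by linarith [h2.1])
            linarith [abs_nonneg t]
          · by_contra h3
            push Not at h3
            have h4 := hx.2 (by linarith [abs_nonneg t])
            linarith [h2.2]
        rw [indicator_of_mem hxE]
        linarith [hn _ h2]
      · rw [indicator_of_notMem h1, indicator_of_notMem h2, sub_zero, abs_zero]
        linarith
  have hi1 : Integrable ((Ioo c d).indicator (fun _ => Λ * |t|)) :=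
    (integrable_indicator_iff measurableSet_Ioo).2 (integrableOn_const measure_Ioo_lt_top.ne)
  have hEv : volume E ≤ ENNReal.ofReal (4 * |t|) := by
    refine (measure_union_le _ _).trans ?_
    rw [Real.volume_Icc, Real.volume_Icc, ← ENNReal.ofReal_add (by linarith [abs_nonneg t])
      (by linarith [abs_nonneg t])]
    apply ENNReal.ofReal_le_ofReal
    linarith
  have hi2 : Integrable (E.indicator (fun _ => S)) :=
    (integrable_indicator_iff hEm).2 (integrableOn_const
      (ne_top_of_le_ne_top ENNReal.ofReal_ne_top hEv))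
  refine (integral_mono_of_nonneg (Filter.Eventually.of_forall fun x => abs_nonneg _)
    (hi1.add hi2) (Filter.Eventually.of_forall key)).trans ?_
  rw [integral_add' hi1 hi2, integral_indicator_const _ measurableSet_Ioo,
    integral_indicator_const _ hEm]
  simp only [smul_eq_mul]
  rw [Real.volume_real_Ioo_of_le hcd]
  have h5 : volume.real E ≤ 4 * |t| := by
    rw [measureReal_def]
    refine (ENNReal.toReal_mono ENNReal.ofReal_ne_top hEv).trans ?_
    rw [ENNReal.toReal_ofReal (by positivity)]
  nlinarith [mul_le_mul_of_nonneg_right h5 hS]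

theorem smo (N : ℝ → ℝ) (hN : Measurable N) (a b s B L Δ δ t : ℝ) (hab : a < b) (hδ : 0 < δ)
    (hB : 0 ≤ B) (hL0 : 0 ≤ L) (hs : s + δ ≤ a ∨ b + δ ≤ s)
    (hΔ : ∀ τ ∈ Icc a b, |τ - s| ≤ Δ) (hNB : ∀ τ ∈ Icc a b, |N τ| ≤ B)
    (hNL : ∀ τ ∈ Icc a b, ∀ τ' ∈ Icc a b, |N τ - N τ'| ≤ L * |τ - τ'|)
    (H : ℝ → ℂ) (hH : Measurable H) (hH1 : ∀ x, ‖H x‖ ≤ 1) :
    ‖(∫ τ in a..b, (N τ : ℂ) * H (1 / (τ - s) + t)) -
      ∫ τ in a..b, (N τ : ℂ) * H (1 / (τ - s))‖ ≤
      ((L * Δ ^ 4 + 2 * B * Δ ^ 3) * ((b - a) / δ ^ 2) + 4 * (B * Δ ^ 2)) * |t| := by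
  set c := 1 / (b - s) with hc
  set d := 1 / (a - s) with hd
  have hΔ0 : 0 < Δ := by
    have h1 := hΔ a ⟨le_rfl, hab.le⟩
    have h2 : 0 < |a - s| := abs_pos.2 (by rcases hs with h | h <;> linarith)
    linarith
  -- the two reciprocals have the same sign
  have hsame : 0 < (a - s) * (b - s) := by
    rcases hs with h | h
    · exact mul_pos (by linarith) (by linarith)
    · exact mul_pos_of_neg_of_neg (by linarith) (by linarith)
  have has : a - s ≠ 0 := fun h => by rw [h, zero_mul] at hsame; exact lt_irrefl _ hsame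
  have hbs : b - s ≠ 0 := fun h => by rw [h, mul_zero] at hsame; exact lt_irrefl _ hsame
  have hcd : c < d := by
    rw [hc, hd, ← sub_pos]
    have : 1 / (a - s) - 1 / (b - s) = (b - a) / ((a - s) * (b - s)) := by
      field_simp; ring
    rw [this]
    exact div_pos (by linarith) hsame
  have hdc : d - c ≤ (b - a) / δ ^ 2 := by
    have : d - c = (b - a) / ((a - s) * (b - s)) := by
      rw [hc, hd]; field_simp; ring
    rw [this]
    apply div_le_div_of_nonneg_left (by linarith) (by positivity)
    rcases hs with h | h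
    · nlinarith
    · nlinarith
  -- facts on the interval (c, d)
  have hne : ∀ x ∈ Ioo c d, x ≠ 0 := by
    intro x hx h0
    rw [h0] at hx
    have h1 : 1 / (b - s) < 0 := hx.1
    have h2 : 0 < 1 / (a - s) := hx.2
    rw [one_div_neg] at h1
    rw [one_div_pos] at h2
    nlinarith
  have hmap : ∀ x ∈ Ioo c d, s + 1 / x ∈ Ioo a b := by
    intro x hx
    have hx0 := hne x hx
    have h1 : 1 / (b - s) < x := hx.1
    have h2 : x < 1 / (a - s) := hx.2
    rcases hs with h | h
    · have p1 : 0 < a - s := by linarith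
      have p2 : 0 < b - s := by linarith
      have px : 0 < x := lt_trans (by positivity) h1
      constructor
      · have : a - s < 1 / x := by
          rw [lt_div_iff₀ px]
          rw [lt_div_iff₀ p1] at h2
          linarith
        linarith
      · have : 1 / x < b - s := by
          rw [div_lt_iff₀ px]
          rw [div_lt_iff₀ p2] at h1
          linarith
        linarith
    · have p1 : a - s < 0 := by linarith
      have p2 : b - s < 0 := by linarith
      have px : x < 0 := lt_trans h2 (by rw [one_div_neg]; exact p1)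
      constructor
      · have : a - s < 1 / x := by
          rw [lt_div_iff_of_neg px]
          rw [lt_div_iff_of_neg p1] at h2
          linarith
        linarith
      · have : 1 / x < b - s := by
          rw [div_lt_iff_of_neg px]
          rw [div_lt_iff_of_neg p2] at h1
          linarith
        linarith
  have himg : (fun x => s + 1 / x) '' Ioo c d = Ioo a b := by
    apply Subset.antisymm
    · rintro _ ⟨x, hx, rfl⟩; exact hmap x hx
    · intro τ hτ
      have hτs : τ - s ≠ 0 := by rcases hs with h | h <;> intro h0 <;> linarith [hτ.1, hτ.2]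
      refine ⟨1 / (τ - s), ⟨?_, ?_⟩, by simp⟩
      · rw [hc, ← sub_pos]
        have : 1 / (τ - s) - 1 / (b - s) = (b - τ) / ((τ - s) * (b - s)) := by
          field_simp; ring
        rw [this]
        apply div_pos (by linarith [hτ.2])
        rcases hs with h | h
        · exact mul_pos (by linarith [hτ.1]) (by linarith)
        · exact mul_pos_of_neg_of_neg (by linarith [hτ.2]) (by linarith)
      · rw [hd, ← sub_pos]
        have : 1 / (a - s) - 1 / (τ - s) = (τ - a) / ((a - s) * (τ - s)) := by
          field_simp; ring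
        rw [this]
        apply div_pos (by linarith [hτ.1])
        rcases hs with h | h
        · exact mul_pos (by linarith) (by linarith [hτ.1])
        · exact mul_pos_of_neg_of_neg (by linarith) (by linarith [hτ.2])
  have hinj : InjOn (fun x => s + 1 / x) (Ioo c d) := by
    intro x hx y hy hxy
    simp only [add_right_inj, one_div, inv_inj] at hxy
    exact hxy
  have hder : ∀ x ∈ Ioo c d, HasDerivWithinAt (fun x => s + 1 / x) (-(x ^ 2)⁻¹) (Ioo c d) x := by
    intro x hx
    have := ((hasDerivAt_inv (hne x hx)).const_add s).hasDerivWithinAt (s := Ioo c d)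
    simpa only [one_div] using this
  set n : ℝ → ℝ := fun x => N (s + 1 / x) / x ^ 2 with hn
  have hnm : Measurable n := by
    exact (hN.comp (measurable_const.add (measurable_const.div measurable_id))).div
      (measurable_id.pow_const 2)
  have habs : ∀ x ∈ Ioo c d, 1 / Δ ≤ |x| := by
    intro x hx
    have h1 := hΔ _ (Ioo_subset_Icc_self (hmap x hx))
    have e : s + 1 / x - s = 1 / x := by ring
    rw [e, abs_div, abs_one] at h1
    have hx0 : 0 < |x| := abs_pos.2 (hne x hx)
    rw [div_le_iff₀ hΔ0]
    rw [div_le_iff₀ hx0] at h1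
    linarith
  have habs' : ∀ x ∈ Ioo c d, 1 / |x| ≤ Δ := by
    intro x hx
    have h1 := habs x hx
    have hx0 : 0 < |x| := abs_pos.2 (hne x hx)
    rw [div_le_iff₀ hx0]
    rw [div_le_iff₀ hΔ0] at h1
    linarith
  have hnS : ∀ x ∈ Ioo c d, |n x| ≤ B * Δ ^ 2 := by
    intro x hx
    have h1 := hNB _ (Ioo_subset_Icc_self (hmap x hx))
    have h2 := habs' x hx
    have hx0 : 0 < |x| := abs_pos.2 (hne x hx)
    have e : |n x| = |N (s + 1 / x)| * (1 / |x|) ^ 2 := by
      rw [hn]; simp only; rw [abs_div, abs_pow]; field_simp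
    rw [e]
    exact mul_le_mul h1 (pow_le_pow_left₀ (by positivity) h2 2) (by positivity) hB
  have hnL : ∀ x ∈ Ioo c d, ∀ y ∈ Ioo c d, |n x - n y| ≤ (L * Δ ^ 4 + 2 * B * Δ ^ 3) * |x - y| := by
    intro x hx y hy
    have hx0 : x ≠ 0 := hne x hx
    have hy0 : y ≠ 0 := hne y hy
    have px : 0 < |x| := abs_pos.2 hx0
    have py : 0 < |y| := abs_pos.2 hy0
    have h1 := hNL _ (Ioo_subset_Icc_self (hmap x hx)) _ (Ioo_subset_Icc_self (hmap y hy))
    have h2 := hNB _ (Ioo_subset_Icc_self (hmap y hy))
    set X := 1 / |x| with hX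
    set Y := 1 / |y| with hY
    have hX1 : X ≤ Δ := habs' x hx
    have hY1 : Y ≤ Δ := habs' y hy
    have hX0 : 0 < X := by positivity
    have hY0 : 0 < Y := by positivity
    have e1 : |s + 1 / x - (s + 1 / y)| = |x - y| * X * Y := by
      have : s + 1 / x - (s + 1 / y) = -(x - y) * (1 / x) * (1 / y) := by field_simp; ring
      rw [this, abs_mul, abs_mul, abs_neg, abs_div, abs_div, abs_one]
    rw [e1] at h1
    have e2 : n x - n y = (N (s + 1 / x) - N (s + 1 / y)) * (1 / x ^ 2) +
        N (s + 1 / y) * (1 / x ^ 2 - 1 / y ^ 2) := by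
      rw [hn]; simp only; field_simp; ring
    have e3 : |1 / x ^ 2| = X ^ 2 := by
      rw [hX, abs_div, abs_one, abs_pow]; field_simp
    have e4 : |1 / x ^ 2 - 1 / y ^ 2| ≤ |x - y| * (X ^ 2 * Y + X * Y ^ 2) := by
      have : 1 / x ^ 2 - 1 / y ^ 2 = -(x - y) * ((1 / x) ^ 2 * (1 / y) + (1 / x) * (1 / y) ^ 2) := by
        field_simp; ring
      rw [this, abs_mul, abs_neg]
      apply mul_le_mul_of_nonneg_left _ (abs_nonneg _)
      refine (abs_add_le _ _).trans (le_of_eq ?_)
      rw [abs_mul, abs_mul, abs_pow, abs_pow, abs_div, abs_div, abs_one]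
    rw [e2]
    refine (abs_add_le _ _).trans ?_
    rw [abs_mul, abs_mul, e3]
    have hXY : X * Y ≤ Δ ^ 2 := by nlinarith
    have hX2 : X ^ 2 ≤ Δ ^ 2 := pow_le_pow_left₀ hX0.le hX1 2
    have hY2 : Y ^ 2 ≤ Δ ^ 2 := pow_le_pow_left₀ hY0.le hY1 2
    have t1 : |N (s + 1 / x) - N (s + 1 / y)| * X ^ 2 ≤ L * Δ ^ 4 * |x - y| := by
      calc _ ≤ (L * (|x - y| * X * Y)) * X ^ 2 := mul_le_mul_of_nonneg_right h1 (by positivity)
        _ = L * |x - y| * ((X * Y) * X ^ 2) := by ring
        _ ≤ L * |x - y| * (Δ ^ 2 * Δ ^ 2) := by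
            apply mul_le_mul_of_nonneg_left _ (by positivity)
            exact mul_le_mul hXY hX2 (by positivity) (by positivity)
        _ = _ := by ring
    have t2 : |N (s + 1 / y)| * |1 / x ^ 2 - 1 / y ^ 2| ≤ 2 * B * Δ ^ 3 * |x - y| := by
      calc _ ≤ B * (|x - y| * (X ^ 2 * Y + X * Y ^ 2)) :=
            mul_le_mul h2 e4 (abs_nonneg _) hB
        _ ≤ B * (|x - y| * (Δ ^ 2 * Δ + Δ * Δ ^ 2)) := by
            apply mul_le_mul_of_nonneg_left _ hB
            apply mul_le_mul_of_nonneg_left _ (abs_nonneg _)
            apply add_le_add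
            · exact mul_le_mul hX2 hY1 hY0.le (by positivity)
            · exact mul_le_mul hX1 hY2 (by positivity) hΔ0.le
        _ = _ := by ring
    calc _ ≤ L * Δ ^ 4 * |x - y| + 2 * B * Δ ^ 3 * |x - y| := add_le_add t1 t2
      _ = _ := by ring
  have hΛ0 : 0 ≤ L * Δ ^ 4 + 2 * B * Δ ^ 3 := by positivity
  have hmod := l1_mod n c d (B * Δ ^ 2) (L * Δ ^ 4 + 2 * B * Δ ^ 3) t hcd.le (by positivity) hΛ0
    hnS hnL
  set ñ := (Ioo c d).indicator n with hñ
  have hñi : Integrable ñ := by
    rw [hñ, integrable_indicator_iff measurableSet_Ioo]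
    refine Measure.integrableOn_of_bounded (M := B * Δ ^ 2) measure_Ioo_lt_top.ne
      hnm.aestronglyMeasurable ?_
    · filter_upwards [ae_restrict_mem measurableSet_Ioo] with x hx
      exact hnS x hx
  -- change of variables
  have hcv : ∀ u : ℝ, ∫ τ in a..b, (N τ : ℂ) * H (1 / (τ - s) + u) =
      ∫ x, (ñ (x - u) : ℂ) * H x := by
    intro u
    rw [intervalIntegral.integral_of_le hab.le, integral_Ioc_eq_integral_Ioo, ← himg,
      integral_image_eq_integral_abs_deriv_smul measurableSet_Ioo hder hinj]
    have e1 : ∫ x in Ioo c d, |-(x ^ 2)⁻¹| • (((N (s + 1 / x) : ℝ) : ℂ) *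
        H (1 / (s + 1 / x - s) + u)) = ∫ x, (ñ x : ℂ) * H (x + u) := by
      rw [← integral_indicator measurableSet_Ioo]
      refine integral_congr_ae (Filter.Eventually.of_forall fun x => ?_)
      by_cases hx : x ∈ Ioo c d
      · simp only [hñ, indicator_of_mem hx, hn]
        have e2 : 1 / (s + 1 / x - s) = x := by
          have : s + 1 / x - s = 1 / x := by ring
          rw [this, one_div_one_div]
        rw [e2, abs_neg, abs_inv, abs_pow, sq_abs, Complex.real_smul]
        push_cast
        ring
      · simp only [hñ, indicator_of_notMem hx, Complex.ofReal_zero, zero_mul]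
    rw [e1]
    rw [← integral_sub_right_eq_self (fun x => (ñ x : ℂ) * H (x + u)) u]
    refine integral_congr_ae (Filter.Eventually.of_forall fun x => ?_)
    simp only [sub_add_cancel]
  have h0 := hcv 0
  simp only [add_zero, sub_zero] at h0
  rw [hcv t, h0]
  have hi1 : Integrable (fun x => (ñ (x - t) : ℂ) * H x) := by
    refine Integrable.mul_bdd (c := 1) (hñi.comp_sub_right t).ofReal hH.aestronglyMeasurable
      (Filter.Eventually.of_forall hH1)
  have hi0 : Integrable (fun x => (ñ x : ℂ) * H x) := by
    refine Integrable.mul_bdd (c := 1) hñi.ofReal hH.aestronglyMeasurable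
      (Filter.Eventually.of_forall hH1)
  rw [← integral_sub hi1 hi0]
  have hi2 : Integrable (fun x => |ñ (x - t) - ñ x|) := ((hñi.comp_sub_right t).sub hñi).abs
  refine (norm_integral_le_of_norm_le hi2 (Filter.Eventually.of_forall fun x => ?_)).trans
    (hmod.trans ?_)
  · rw [← sub_mul, norm_mul, ← Complex.ofReal_sub, Complex.norm_real, Real.norm_eq_abs]
    calc _ ≤ |ñ (x - t) - ñ x| * 1 := mul_le_mul_of_nonneg_left (hH1 x) (abs_nonneg _)
      _ = _ := mul_one _
  · apply mul_le_mul_of_nonneg_right _ (abs_nonneg t)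
    have := mul_le_mul_of_nonneg_left hdc hΛ0
    linarith

end Pool.Agent.H42.Pl
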