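import Pool.Agent.H42.Pl.NNb
import Pool.Agent.H42.Pl.Smo

/-!
# The operators `AA`
-/

open MeasureTheory Set
open scoped ComplexConjugate

namespace Pool.Agent.H42.Pl

open Pool.Agent.H67.Pl

/-- the averages over the first interval -/
noncomputable def AA (σ : ℂ) (m t₁ ℓ : ℝ) (α : ℂ) (s : ℝ) (F : ℂ → ℂ) (p : ℂ) : ℂ :=
  ∫ τ in t₁..(t₁ + ℓ), (NN σ m ‖α‖ τ s : ℂ) * F (p + zz σ τ s * α)

/-- the position of `s` with respect to the first interval -/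
structure Sep (Q t₁ ℓ s : ℝ) : Prop where
  sep : s + 1 / Q ≤ t₁ ∨ t₁ + ℓ + 1 / Q ≤ s
  hs : |s| ≤ Q
  hℓ : 0 < ℓ
  hℓ1 : ℓ ≤ 1
  ht : |t₁| ≤ Q
  ht' : |t₁ + ℓ| ≤ Q

theorem Sep.abs_sub {Q t₁ ℓ s : ℝ} (h : Sep Q t₁ ℓ s) {τ : ℝ} (hτ : τ ∈ Icc t₁ (t₁ + ℓ)) :
    1 / Q ≤ |τ - s| := by
  rcases h.sep with h1 | h1
  · exact le_trans (by linarith [hτ.1]) (le_abs_self _)
  · rw [abs_sub_comm]
    exact le_trans (by linarith [hτ.2]) (le_abs_self _)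

theorem Sep.abs_le {Q t₁ ℓ s : ℝ} (h : Sep Q t₁ ℓ s) {τ : ℝ} (hτ : τ ∈ Icc t₁ (t₁ + ℓ)) :
    |τ| ≤ Q := by
  have h1 := _root_.abs_le.1 h.ht
  have h2 := _root_.abs_le.1 h.ht'
  exact _root_.abs_le.2 ⟨h1.1.trans hτ.1, hτ.2.trans h2.2⟩

theorem measurable_NN (σ : ℂ) (m : ℝ) :
    Measurable (fun z : (ℝ × ℝ) × ℝ => NN σ m z.1.1 z.1.2 z.2) := by
  unfold NN
  have h1 : Measurable (fun z : (ℝ × ℝ) × ℝ => ‖(1 : ℂ) + (z.2 : ℂ) * σ‖) := by fun_prop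
  have h2 : Measurable (fun z : (ℝ × ℝ) × ℝ => ‖(1 : ℂ) + (z.1.2 : ℂ) * σ‖) := by fun_prop
  have h3 : Measurable (fun z : (ℝ × ℝ) × ℝ => |z.1.2 - z.2|) := by
    have : Continuous (fun z : (ℝ × ℝ) × ℝ => |z.1.2 - z.2|) := by fun_prop
    exact this.measurable
  have h4 : Measurable (fun z : (ℝ × ℝ) × ℝ => |z.1.2|) := by
    have : Continuous (fun z : (ℝ × ℝ) × ℝ => |z.1.2|) := by fun_prop
    exact this.measurable
  have h5 : Measurable (fun z : (ℝ × ℝ) × ℝ => |z.2|) := by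
    have : Continuous (fun z : (ℝ × ℝ) × ℝ => |z.2|) := by fun_prop
    exact this.measurable
  have h6 : Measurable (fun z : (ℝ × ℝ) × ℝ => z.1.1) := by fun_prop
  have h7 : Measurable (fun z : (ℝ × ℝ) × ℝ => (z.1.2 - z.2) ^ 2) := by fun_prop
  refine ((measurable_const.div (h7.mul measurable_const)).mul
    ((measurable_const.max (measurable_const.sub (h6.mul ((h1.mul
      (measurable_const.add h4)).div (h3.mul measurable_const))))).div measurable_const)).mul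
    ((measurable_const.max (measurable_const.sub (h6.mul ((h2.mul
      (measurable_const.add h5)).div (h3.mul measurable_const))))).div measurable_const)

theorem measurable_zz (σ : ℂ) : Measurable (fun z : ℝ × ℝ => zz σ z.1 z.2) := by
  unfold zz
  fun_prop

theorem AA_zero {σ : ℂ} {Q m t₁ ℓ s : ℝ} (P : Par σ Q) (hm : 0 < m) (hs : Sep Q t₁ ℓ s) {α : ℂ}
    (hα : Q ^ 5 * m ≤ ‖α‖) (F : ℂ → ℂ) (p : ℂ) : AA σ m t₁ ℓ α s F p = 0 := by
  unfold AA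
  rw [intervalIntegral.integral_of_le (by linarith [hs.hℓ])]
  apply setIntegral_eq_zero_of_forall_eq_zero
  intro τ hτ
  have hτ' : τ ∈ Icc t₁ (t₁ + ℓ) := Ioc_subset_Icc_self hτ
  rw [P.NN_zero hm hα (hs.abs_sub hτ') (hs.abs_le hτ') hs.hs]
  simp

theorem norm_zz_le {σ : ℂ} {Q t₁ ℓ s : ℝ} (P : Par σ Q) (hs : Sep Q t₁ ℓ s) {τ : ℝ}
    (hτ : τ ∈ Icc t₁ (t₁ + ℓ)) : ‖zz σ τ s‖ ≤ Q ^ 5 := by
  have h0 := P.pos
  have h16 := P.hQ
  have hd := hs.abs_sub hτ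
  have hd0 : 0 < |τ - s| := lt_of_lt_of_le (by positivity) hd
  have hu1 : 1 / |τ - s| ≤ Q := by
    rw [div_le_iff₀ hd0]; rw [div_le_iff₀ h0] at hd; linarith
  unfold zz
  rw [norm_div, ← Complex.ofReal_sub, Complex.norm_real, Real.norm_eq_abs]
  have h1 : ‖(τ : ℂ) * s * σ - 1 / σ‖ ≤ Q * Q * Q + Q := by
    refine (norm_sub_le _ _).trans ?_
    rw [norm_mul, norm_mul, Complex.norm_real, Complex.norm_real, norm_div, norm_one]
    apply add_le_add _ P.inv_norm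
    exact mul_le_mul (mul_le_mul (hs.abs_le hτ) hs.hs (norm_nonneg _) h0.le) P.hσ (norm_nonneg _)
      (by positivity)
  calc _ = ‖(τ : ℂ) * s * σ - 1 / σ‖ * (1 / |τ - s|) := by ring
    _ ≤ (Q * Q * Q + Q) * Q := mul_le_mul h1 hu1 (by positivity) (by positivity)
    _ = Q ^ 4 + Q ^ 2 := by ring
    _ ≤ 2 * Q ^ 4 := by have := P.pow_le (show 2 ≤ 4 by norm_num); linarith
    _ ≤ _ := by
        have : 0 < Q ^ 4 := by positivity
        nlinarith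

theorem AA_norm {σ : ℂ} {Q m t₁ ℓ s : ℝ} (P : Par σ Q) (hm : 0 < m) (hs : Sep Q t₁ ℓ s) (α : ℂ)
    {F : ℂ → ℂ} (hF : ∀ x, ‖F x‖ ≤ 1) (p : ℂ) : ‖AA σ m t₁ ℓ α s F p‖ ≤ Q ^ 4 / m ^ 4 := by
  have h0 := P.pos
  unfold AA
  have h1 : ∀ τ ∈ Set.uIoc t₁ (t₁ + ℓ), ‖(NN σ m ‖α‖ τ s : ℂ) * F (p + zz σ τ s * α)‖ ≤
      Q ^ 4 / m ^ 4 := by
    intro τ hτ
    rw [uIoc_of_le (by linarith [hs.hℓ])] at hτ
    have hτ' : τ ∈ Icc t₁ (t₁ + ℓ) := Ioc_subset_Icc_self hτ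
    rw [norm_mul, Complex.norm_real, Real.norm_of_nonneg (P.NN_nonneg hm _ _ _)]
    calc _ ≤ (Q ^ 4 / m ^ 4) * 1 := mul_le_mul (P.NN_le hm (norm_nonneg _) (hs.abs_sub hτ'))
          (hF _) (norm_nonneg _) (by positivity)
      _ = _ := mul_one _
  refine (intervalIntegral.norm_integral_le_of_norm_le_const h1).trans ?_
  have : |t₁ + ℓ - t₁| = ℓ := by rw [add_sub_cancel_left, abs_of_pos hs.hℓ]
  rw [this]
  calc _ ≤ Q ^ 4 / m ^ 4 * 1 := mul_le_mul_of_nonneg_left hs.hℓ1 (by positivity)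
    _ = _ := mul_one _

theorem AA_supp {σ : ℂ} {Q m t₁ ℓ s R : ℝ} (P : Par σ Q) (hm : 0 < m) (hm1 : m ≤ 1)
    (hs : Sep Q t₁ ℓ s) (α : ℂ) {F : ℂ → ℂ} (hF : ∀ x, R < ‖x‖ → F x = 0) (p : ℂ)
    (hp : R + Q ^ 10 < ‖p‖) : AA σ m t₁ ℓ α s F p = 0 := by
  have h0 := P.pos
  rcases le_total (Q ^ 5 * m) ‖α‖ with hα | hα
  · exact AA_zero P hm hs hα F p
  unfold AA
  rw [intervalIntegral.integral_of_le (by linarith [hs.hℓ])]
  apply setIntegral_eq_zero_of_forall_eq_zero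
  intro τ hτ
  have hτ' : τ ∈ Icc t₁ (t₁ + ℓ) := Ioc_subset_Icc_self hτ
  have h1 := norm_zz_le P hs hτ'
  have h2 : ‖zz σ τ s * α‖ ≤ Q ^ 10 := by
    rw [norm_mul]
    calc _ ≤ Q ^ 5 * (Q ^ 5 * m) := mul_le_mul h1 hα (norm_nonneg _) (by positivity)
      _ = Q ^ 10 * m := by ring
      _ ≤ Q ^ 10 * 1 := mul_le_mul_of_nonneg_left hm1 (by positivity)
      _ = _ := mul_one _
  have h3 : ‖p‖ ≤ ‖p + zz σ τ s * α‖ + ‖zz σ τ s * α‖ := by
    calc ‖p‖ = ‖(p + zz σ τ s * α) - zz σ τ s * α‖ := by congr 1; ring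
      _ ≤ _ := norm_sub_le _ _
  rw [hF _ (by linarith), mul_zero]

theorem AA_add (σ : ℂ) (m t₁ ℓ : ℝ) (α : ℂ) (s : ℝ) (F : ℂ → ℂ) (c p : ℂ) :
    AA σ m t₁ ℓ α s (fun x => F (x + c)) p = AA σ m t₁ ℓ α s F (p + c) := by
  unfold AA
  congr 1
  funext τ
  have : p + zz σ τ s * α + c = p + c + zz σ τ s * α := by ring
  simp only [this]

/-- shifts along `cc σ s * α` change little -/
theorem AA_shift {σ : ℂ} {Q m t₁ ℓ s : ℝ} (P : Par σ Q) (hm : 0 < m) (hs : Sep Q t₁ ℓ s) (α : ℂ)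
    {F : ℂ → ℂ} (hFm : Measurable F) (hF : ∀ x, ‖F x‖ ≤ 1) (t : ℝ) (p : ℂ) :
    ‖AA σ m t₁ ℓ α s F (p + t * (cc σ s * α)) - AA σ m t₁ ℓ α s F p‖ ≤
      Q ^ 24 / m ^ 4 * |t| := by
  have h0 := P.pos
  have h16 := P.hQ
  set H : ℝ → ℂ := fun x => F (p + s * σ * α + x * (cc σ s * α)) with hH
  have hHm : Measurable H := by
    apply hFm.comp
    fun_prop
  have hN : Measurable (fun τ => NN σ m ‖α‖ τ s) :=
    (measurable_NN σ m).comp ((measurable_const.prodMk measurable_id).prodMk measurable_const)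
  have key := smo (fun τ => NN σ m ‖α‖ τ s) hN t₁ (t₁ + ℓ) s (Q ^ 4 / m ^ 4) (Q ^ 16 / m ^ 4)
    (2 * Q) (1 / Q) t (by linarith [hs.hℓ]) (by positivity) (by positivity) (by positivity)
    (by rcases hs.sep with h | h
        · left; exact h
        · right; exact h)
    (fun τ hτ => (_root_.abs_sub _ _).trans (by linarith [hs.abs_le hτ, hs.hs]))
    (fun τ hτ => by
      rw [abs_of_nonneg (P.NN_nonneg hm _ _ _)]
      exact P.NN_le hm (norm_nonneg _) (hs.abs_sub hτ))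
    (fun τ hτ τ' hτ' => P.NN_lip hm (norm_nonneg _) (hs.abs_sub hτ) (hs.abs_sub hτ')
      (hs.abs_le hτ) (hs.abs_le hτ') hs.hs) H hHm (fun x => hF _)
  have e : ∀ u : ℝ, ∀ τ ∈ Set.uIcc t₁ (t₁ + ℓ), (NN σ m ‖α‖ τ s : ℂ) * H (1 / (τ - s) + u) =
      (NN σ m ‖α‖ τ s : ℂ) * F (p + u * (cc σ s * α) + zz σ τ s * α) := by
    intro u τ hτ
    rw [uIcc_of_le (by linarith [hs.hℓ])] at hτ
    have hne : τ ≠ s := by
      intro h1
      have := hs.abs_sub hτ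
      rw [h1, sub_self, abs_zero] at this
      have h2 : 0 < 1 / Q := by positivity
      linarith
    rw [zz_eq σ hne, hH]
    simp only
    congr 2
    push_cast
    ring
  have e1 : AA σ m t₁ ℓ α s F (p + t * (cc σ s * α)) =
      ∫ τ in t₁..(t₁ + ℓ), (NN σ m ‖α‖ τ s : ℂ) * H (1 / (τ - s) + t) := by
    unfold AA
    exact (intervalIntegral.integral_congr (e t)).symm
  have e2 : AA σ m t₁ ℓ α s F p =
      ∫ τ in t₁..(t₁ + ℓ), (NN σ m ‖α‖ τ s : ℂ) * H (1 / (τ - s)) := by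
    unfold AA
    refine (intervalIntegral.integral_congr fun τ hτ => ?_).symm
    have := e 0 τ hτ
    simp only [add_zero, Complex.ofReal_zero, zero_mul] at this
    exact this
  rw [e1, e2]
  refine key.trans (mul_le_mul_of_nonneg_right ?_ (abs_nonneg t))
  have hl : (t₁ + ℓ - t₁) / (1 / Q) ^ 2 ≤ Q ^ 2 := by
    rw [add_sub_cancel_left]
    have : ℓ / (1 / Q) ^ 2 = ℓ * Q ^ 2 := by field_simp
    rw [this]
    have := mul_le_mul_of_nonneg_right hs.hℓ1 (by positivity : (0 : ℝ) ≤ Q ^ 2)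
    linarith
  have h1 : 0 ≤ Q ^ 16 / m ^ 4 * (2 * Q) ^ 4 + 2 * (Q ^ 4 / m ^ 4) * (2 * Q) ^ 3 := by positivity
  calc _ ≤ (Q ^ 16 / m ^ 4 * (2 * Q) ^ 4 + 2 * (Q ^ 4 / m ^ 4) * (2 * Q) ^ 3) * Q ^ 2 +
        4 * (Q ^ 4 / m ^ 4 * (2 * Q) ^ 2) := by
        have := mul_le_mul_of_nonneg_left hl h1
        linarith
    _ = (16 * Q ^ 22 + 16 * Q ^ 9 + 16 * Q ^ 6) / m ^ 4 := by field_simp; ring
    _ ≤ _ := by
        apply div_le_div_of_nonneg_right _ (by positivity)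
        have h3 := P.pow_le (show 9 ≤ 22 by norm_num)
        have h4 := P.pow_le (show 6 ≤ 22 by norm_num)
        have h5 : Q ^ 24 = Q ^ 22 * (Q * Q) := by ring
        have h6 : 0 < Q ^ 22 := by positivity
        have h7 : 48 ≤ Q * Q := by nlinarith
        nlinarith [mul_le_mul_of_nonneg_left h7 h6.le]

end Pool.Agent.H42.Pl
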