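import Pool.Agent.H42.Pl.Op

/-!
# The estimate for a fixed `α`
-/

open MeasureTheory Set
open scoped ComplexConjugate

namespace Pool.Agent.H42.Pl

open Pool.Agent.H67.Pl

/-- the determinant of the two directions -/
theorem basis {σ : ℂ} {Q : ℝ} (P : Par σ Q) {s u δ : ℝ} (hs : |s| ≤ Q) (hu : |u| ≤ Q)
    (hδ : 0 < δ) (hsu : δ ≤ |s - u|) (hp : 2 / Q ≤ |s + u|) {α : ℂ} (hα : α ≠ 0) (y : ℂ) :
    ∃ t t' : ℝ, y = t * (cc σ s * α) + t' * (cc σ u * α) ∧
      |t| ≤ Q ^ 9 / δ * (‖y‖ / ‖α‖) ∧ |t'| ≤ Q ^ 9 / δ * (‖y‖ / ‖α‖) := by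
  have h0 := P.pos
  have h16 := P.hQ
  have hn := P.norm_pos
  have hσ0 : σ ≠ 0 := norm_pos_iff.1 hn
  set η : ℂ := y / α with hη
  have hy : y = η * α := by rw [hη]; field_simp
  have hηn : ‖η‖ = ‖y‖ / ‖α‖ := by rw [hη, norm_div]
  set c := cc σ s with hc
  set c' := cc σ u with hc'
  set D := (conj c * c').im with hD
  -- the determinant
  have hDe : D = (s ^ 2 - u ^ 2) * (2 * σ.re * σ.im / ‖σ‖ ^ 2) := by
    have hsq : ‖σ‖ ^ 2 = σ.re ^ 2 + σ.im ^ 2 := by
      rw [← Complex.normSq_eq_norm_sq, Complex.normSq_apply]; ring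
    have hsq0 : σ.re ^ 2 + σ.im ^ 2 ≠ 0 := by rw [← hsq]; positivity
    have hinv : (1 : ℂ) / σ = conj σ / ((‖σ‖ ^ 2 : ℝ) : ℂ) := by
      rw [eq_div_iff (by simpa using hσ0), div_mul_eq_mul_div, div_eq_iff hσ0, one_mul,
        ← Complex.normSq_eq_norm_sq, Complex.normSq_eq_conj_mul_self]
    rw [hD, hc, hc']
    unfold cc
    rw [hinv, hsq]
    have e1 : ((s : ℂ) ^ 2 * σ - conj σ / ((σ.re ^ 2 + σ.im ^ 2 : ℝ) : ℂ)) =
        ⟨s ^ 2 * σ.re - σ.re / (σ.re ^ 2 + σ.im ^ 2),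
          s ^ 2 * σ.im + σ.im / (σ.re ^ 2 + σ.im ^ 2)⟩ := by
      generalize σ.re ^ 2 + σ.im ^ 2 = N
      rw [← Complex.ofReal_pow]
      apply Complex.ext
      · rw [Complex.sub_re, Complex.re_ofReal_mul, Complex.div_ofReal_re, Complex.conj_re]
      · rw [Complex.sub_im, Complex.im_ofReal_mul, Complex.div_ofReal_im, Complex.conj_im]
        ring
    have e2 : ((u : ℂ) ^ 2 * σ - conj σ / ((σ.re ^ 2 + σ.im ^ 2 : ℝ) : ℂ)) =
        ⟨u ^ 2 * σ.re - σ.re / (σ.re ^ 2 + σ.im ^ 2),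
          u ^ 2 * σ.im + σ.im / (σ.re ^ 2 + σ.im ^ 2)⟩ := by
      generalize σ.re ^ 2 + σ.im ^ 2 = N
      rw [← Complex.ofReal_pow]
      apply Complex.ext
      · rw [Complex.sub_re, Complex.re_ofReal_mul, Complex.div_ofReal_re, Complex.conj_re]
      · rw [Complex.sub_im, Complex.im_ofReal_mul, Complex.div_ofReal_im, Complex.conj_im]
        ring
    rw [e1, e2]
    simp only [Complex.mul_im, Complex.conj_re, Complex.conj_im]
    field_simp
    ring
  have hDge : 4 * δ / Q ^ 5 ≤ |D| := by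
    rw [hDe, abs_mul, abs_div, abs_mul, abs_mul, abs_of_pos (by norm_num : (0 : ℝ) < 2),
      abs_of_nonneg (by positivity : (0 : ℝ) ≤ ‖σ‖ ^ 2)]
    have e1 : |s ^ 2 - u ^ 2| = |s - u| * |s + u| := by rw [← abs_mul]; congr 1; ring
    rw [e1]
    have h1 : δ * (2 / Q) ≤ |s - u| * |s + u| :=
      mul_le_mul hsu hp (by positivity) (abs_nonneg _)
    have h2 : 2 * (1 / Q) * (1 / Q) / Q ^ 2 ≤ 2 * |σ.re| * |σ.im| / ‖σ‖ ^ 2 := by
      apply div_le_div₀ (by positivity) _ (by positivity)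
        (pow_le_pow_left₀ (norm_nonneg _) P.hσ 2)
      exact mul_le_mul (mul_le_mul_of_nonneg_left P.hre (by norm_num)) P.him (by positivity)
        (by positivity)
    calc 4 * δ / Q ^ 5 = δ * (2 / Q) * (2 * (1 / Q) * (1 / Q) / Q ^ 2) := by field_simp; ring
      _ ≤ _ := mul_le_mul h1 h2 (by positivity) (by positivity)
  have hD0 : 0 < |D| := lt_of_lt_of_le (by positivity) hDge
  have hDne : D ≠ 0 := abs_pos.1 hD0
  have hcb : ∀ v : ℝ, |v| ≤ Q → ‖cc σ v‖ ≤ Q ^ 3 + Q := by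
    intro v hv
    unfold cc
    refine (norm_sub_le _ _).trans ?_
    rw [norm_mul, norm_pow, Complex.norm_real, Real.norm_eq_abs, norm_div, norm_one]
    apply add_le_add _ P.inv_norm
    calc |v| ^ 2 * ‖σ‖ ≤ Q ^ 2 * Q := mul_le_mul (pow_le_pow_left₀ (abs_nonneg _) hv 2) P.hσ
          (norm_nonneg _) (by positivity)
      _ = _ := by ring
  have hbound : ∀ v : ℂ, ‖v‖ ≤ Q ^ 3 + Q → |(conj v * η).im / D| ≤ Q ^ 9 / δ * ‖η‖ := by
    intro v hv
    rw [abs_div]
    have h1 : |(conj v * η).im| ≤ (Q ^ 3 + Q) * ‖η‖ := by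
      refine (Complex.abs_im_le_norm _).trans ?_
      rw [norm_mul, RCLike.norm_conj]
      exact mul_le_mul_of_nonneg_right hv (norm_nonneg _)
    have h2 : (Q ^ 3 + Q) ≤ 4 * Q ^ 4 := by
      have := P.pow_le (show 3 ≤ 4 by norm_num)
      have := P.pow_le (show 1 ≤ 4 by norm_num)
      rw [pow_one] at this
      have : 0 < Q ^ 4 := by positivity
      linarith
    calc |(conj v * η).im| / |D| ≤ (Q ^ 3 + Q) * ‖η‖ / (4 * δ / Q ^ 5) :=
          div_le_div₀ (by positivity) h1 (by positivity) hDge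
      _ ≤ 4 * Q ^ 4 * ‖η‖ / (4 * δ / Q ^ 5) := by gcongr
      _ = Q ^ 9 / δ * ‖η‖ := by field_simp
  refine ⟨-(conj c' * η).im / D, (conj c * η).im / D, ?_, ?_, ?_⟩
  · rw [hy]
    have key : η = ((-(conj c' * η).im / D : ℝ) : ℂ) * c + (((conj c * η).im / D : ℝ) : ℂ) * c' := by
      have e1 : D = c.re * c'.im - c.im * c'.re := by
        rw [hD]; simp only [Complex.mul_im, Complex.conj_re, Complex.conj_im]; ring
      apply Complex.ext
      · simp only [Complex.add_re, Complex.re_ofReal_mul]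
        have : (-(conj c' * η).im / D) * c.re + (conj c * η).im / D * c'.re =
            (-(conj c' * η).im * c.re + (conj c * η).im * c'.re) / D := by ring
        rw [this, eq_div_iff hDne, e1]
        simp only [Complex.mul_im, Complex.conj_re, Complex.conj_im]
        ring
      · simp only [Complex.add_im, Complex.im_ofReal_mul]
        have : (-(conj c' * η).im / D) * c.im + (conj c * η).im / D * c'.im =
            (-(conj c' * η).im * c.im + (conj c * η).im * c'.im) / D := by ring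
        rw [this, eq_div_iff hDne, e1]
        simp only [Complex.mul_im, Complex.conj_re, Complex.conj_im]
        ring
    calc η * α = (((-(conj c' * η).im / D : ℝ) : ℂ) * c +
          (((conj c * η).im / D : ℝ) : ℂ) * c') * α := by rw [← key]
      _ = _ := by ring
  · rw [neg_div, abs_neg, ← hηn]
    exact hbound c' (hcb u hu)
  · rw [← hηn]
    exact hbound c (hcb s hs)

end Pool.Agent.H42.Pl
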