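import Pool.Agent.H42.Pl.Per
import Pool.Agent.H42.Pl.AASq

/-!
# The estimate for a fixed `α`, part 2
-/

open MeasureTheory Set
open scoped ComplexConjugate

namespace Pool.Agent.H42.Pl

open Pool.Agent.H67.Pl

theorem swapb {X Y : Type*} [MeasurableSpace X] [MeasurableSpace Y] (μ : Measure X)
    (ν : Measure Y) [IsFiniteMeasure μ] [IsFiniteMeasure ν] (H : X × Y → ℂ) (hH : Measurable H)
    (C : ℝ) (hC : ∀ z, ‖H z‖ ≤ C) :
    ∫ x, ∫ y, H (x, y) ∂ν ∂μ = ∫ y, ∫ x, H (x, y) ∂μ ∂ν := by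
  apply integral_integral_swap
  exact Integrable.of_bound hH.aestronglyMeasurable C (Filter.Eventually.of_forall hC)

theorem ball_vol (r : ℝ) (hr : 0 ≤ r) : volume.real (Metric.ball (0 : ℂ) r) = Real.pi * r ^ 2 := by
  unfold Measure.real
  rw [Complex.volume_ball]
  rw [ENNReal.toReal_mul, ENNReal.toReal_pow, ENNReal.toReal_ofReal hr]
  simp [mul_comm]

/-- a bounded measurable function supported in a ball -/
theorem int_of_ball {G : ℂ → ℂ} (hG : Measurable G) (b C : ℝ) (hb : 0 ≤ b) (h1 : ∀ p, ‖G p‖ ≤ C)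
    (h2 : ∀ p, b ≤ ‖p‖ → G p = 0) :
    Integrable G ∧ ∫ p, ‖G p‖ ≤ C * (Real.pi * b ^ 2) := by
  have hs : Function.support G ⊆ Metric.ball (0 : ℂ) b := by
    intro p hp
    rw [Metric.mem_ball, dist_zero_right]
    by_contra hc
    exact hp (h2 p (not_lt.1 hc))
  have hfin : volume (Metric.ball (0 : ℂ) b) ≠ ⊤ := measure_ball_lt_top.ne
  have hi : IntegrableOn G (Metric.ball (0 : ℂ) b) :=
    Measure.integrableOn_of_bounded hfin hG.aestronglyMeasurable
      (Filter.Eventually.of_forall h1)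
  have hI : Integrable G := (integrableOn_iff_integrable_of_support_subset hs).1 hi
  refine ⟨hI, ?_⟩
  have e : ∫ p, ‖G p‖ = ∫ p in Metric.ball (0 : ℂ) b, ‖G p‖ := by
    symm
    apply setIntegral_eq_integral_of_forall_compl_eq_zero
    intro p hp
    rw [Metric.mem_ball, dist_zero_right, not_lt] at hp
    rw [h2 p hp, norm_zero]
  rw [e]
  calc ∫ p in Metric.ball (0 : ℂ) b, ‖G p‖ ≤ ∫ _p in Metric.ball (0 : ℂ) b, C :=
        integral_mono hi.norm (integrableOn_const hfin) h1
    _ = C * (Real.pi * b ^ 2) := by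
        rw [setIntegral_const, ball_vol b hb, smul_eq_mul, mul_comm]

/-- The abstract form of the estimate. -/
theorem pair_est (A B AS : ℂ → ℂ) (hA : Measurable A) (hB : Measurable B) (β b I L w : ℝ)
    (hβ : 0 ≤ β)
    (hb : 0 ≤ b) (hw : 0 < w) (hL : 0 ≤ L) (hA1 : ∀ p, ‖A p‖ ≤ β) (hB1 : ∀ p, ‖B p‖ ≤ β)
    (hA2 : ∀ p, b ≤ ‖p‖ → A p = 0) (hB2 : ∀ p, b ≤ ‖p‖ → B p = 0)
    (hI : β * (Real.pi * b ^ 2) ≤ I)
    (hASi : Integrable AS)
    (hAS : ∀ p, AS p = ((1 / w ^ 2 : ℝ) : ℂ) * ∫ y in sq 0 w, A (p + y))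
    (hy : ∀ y ∈ sq 0 w, ∃ v v' : ℂ, y = v + v' ∧ (∀ p, ‖A (p + v) - A p‖ ≤ L) ∧
      (∀ p, ‖B (p - v') - B p‖ ≤ L)) :
    ‖∫ p, A p * conj (B p)‖ ≤ β * (∫ p, ‖AS p‖) + 2 * (I * L) := by
  obtain ⟨hAi, hAI⟩ := int_of_ball hA b β hb hA1 hA2
  obtain ⟨hBi, hBI⟩ := int_of_ball hB b β hb hB1 hB2
  have hcm : Measurable (fun p => conj (B p)) := Complex.continuous_conj.measurable.comp hB
  have hBc : Integrable (fun p => conj (B p)) :=
    hBi.mono hcm.aestronglyMeasurable (Filter.Eventually.of_forall fun p => by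
      rw [RCLike.norm_conj])
  have hprod : ∀ c : ℂ, Integrable (fun p => A (p + c) * conj (B p)) := by
    intro c
    refine Integrable.bdd_mul (c := β) hBc
      (hA.comp (measurable_id.add_const c)).aestronglyMeasurable
      (Filter.Eventually.of_forall fun p => hA1 _)
  -- step 1
  have s1 : ∀ y ∈ sq 0 w, ‖(∫ p, A p * conj (B p)) - ∫ p, A (p + y) * conj (B p)‖ ≤
      2 * (I * L) := by
    intro y hyy
    obtain ⟨v, v', rfl, h1, h2⟩ := hy y hyy
    have e1 : ∫ p, A (p + v') * conj (B p) = ∫ p, A p * conj (B (p - v')) := by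
      rw [← integral_add_right_eq_self (μ := volume) (fun p => A p * conj (B (p - v'))) v']
      simp
    have d1 : ‖(∫ p, A (p + v') * conj (B p)) - ∫ p, A (p + (v + v')) * conj (B p)‖ ≤ I * L := by
      rw [← integral_sub (hprod _) (hprod _)]
      refine (norm_integral_le_integral_norm _).trans ?_
      calc ∫ p, ‖A (p + v') * conj (B p) - A (p + (v + v')) * conj (B p)‖ ≤
            ∫ p, L * ‖B p‖ := by
            apply integral_mono ((hprod _).sub (hprod _)).norm (hBi.norm.const_mul L)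
            intro p
            change ‖A (p + v') * conj (B p) - A (p + (v + v')) * conj (B p)‖ ≤ L * ‖B p‖
            rw [← sub_mul, norm_mul, RCLike.norm_conj]
            apply mul_le_mul_of_nonneg_right _ (norm_nonneg _)
            rw [norm_sub_rev]
            have := h1 (p + v')
            rwa [add_assoc, add_comm v' v] at this
        _ = (∫ p, ‖B p‖) * L := by rw [integral_const_mul, mul_comm]
        _ ≤ I * L := mul_le_mul_of_nonneg_right (hBI.trans hI) hL
    have d2 : ‖(∫ p, A p * conj (B p)) - ∫ p, A (p + v') * conj (B p)‖ ≤ I * L := by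
      rw [e1]
      have i2 : Integrable (fun p => A p * conj (B (p - v'))) := by
        refine Integrable.mul_bdd (c := β) hAi
          (hcm.comp (measurable_id.sub_const v')).aestronglyMeasurable
          (Filter.Eventually.of_forall fun p => by
            simp only [RCLike.norm_conj]; exact hB1 _)
      have i1 : Integrable (fun p => A p * conj (B p)) := by
        have := hprod 0
        simpa using this
      rw [← integral_sub i1 i2]
      refine (norm_integral_le_integral_norm _).trans ?_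
      calc ∫ p, ‖A p * conj (B p) - A p * conj (B (p - v'))‖ ≤
            ∫ p, L * ‖A p‖ := by
            apply integral_mono (i1.sub i2).norm (hAi.norm.const_mul L)
            intro p
            change ‖A p * conj (B p) - A p * conj (B (p - v'))‖ ≤ L * ‖A p‖
            rw [← mul_sub, norm_mul, ← map_sub, RCLike.norm_conj, mul_comm]
            apply mul_le_mul_of_nonneg_right _ (norm_nonneg _)
            rw [norm_sub_rev]
            exact h2 p
        _ = (∫ p, ‖A p‖) * L := by rw [integral_const_mul, mul_comm]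
        _ ≤ I * L := mul_le_mul_of_nonneg_right (hAI.trans hI) hL
    calc _ = ‖((∫ p, A p * conj (B p)) - ∫ p, A (p + v') * conj (B p)) +
          ((∫ p, A (p + v') * conj (B p)) - ∫ p, A (p + (v + v')) * conj (B p))‖ := by
          congr 1; ring
      _ ≤ _ := norm_add_le _ _
      _ ≤ 2 * (I * L) := by linarith
  -- step 2
  have hfin := sqm_fin w hw
  have hvol := sq_set_vol w hw
  have hms := sq_set_meas w
  have hmJ : StronglyMeasurable (fun y : ℂ => ∫ p, A (p + y) * conj (B p)) := by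
    have : Measurable (fun z : ℂ × ℂ => A (z.2 + z.1) * conj (B z.2)) :=
      (hA.comp (measurable_snd.add measurable_fst)).mul (hcm.comp measurable_snd)
    exact this.stronglyMeasurable.integral_prod_right' (ν := volume)
  have hJb : ∀ y, ‖∫ p, A (p + y) * conj (B p)‖ ≤ β * I := by
    intro y
    refine (norm_integral_le_integral_norm _).trans ?_
    calc ∫ p, ‖A (p + y) * conj (B p)‖ ≤ ∫ p, β * ‖B p‖ := by
          apply integral_mono (hprod _).norm (hBi.norm.const_mul β)
          intro p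
          simp only
          rw [norm_mul, RCLike.norm_conj]
          exact mul_le_mul_of_nonneg_right (hA1 _) (norm_nonneg _)
      _ = β * ∫ p, ‖B p‖ := integral_const_mul _ _
      _ ≤ β * I := mul_le_mul_of_nonneg_left (hBI.trans hI) hβ
  have hJi : IntegrableOn (fun y : ℂ => ∫ p, A (p + y) * conj (B p)) (sq 0 w) :=
    Measure.integrableOn_of_bounded hfin.ne hmJ.aestronglyMeasurable
      (Filter.Eventually.of_forall hJb)
  have s2 : ‖(∫ p, A p * conj (B p)) - ((1 / w ^ 2 : ℝ) : ℂ) *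
      ∫ y in sq 0 w, ∫ p, A (p + y) * conj (B p)‖ ≤ 2 * (I * L) := by
    have e : (∫ p, A p * conj (B p)) = ((1 / w ^ 2 : ℝ) : ℂ) *
        ∫ _y in sq 0 w, ∫ p, A p * conj (B p) := by
      rw [setIntegral_const, hvol, Complex.real_smul]
      have : (w : ℂ) ≠ 0 := by exact_mod_cast hw.ne'
      push_cast
      field_simp
    have hc0 : IntegrableOn (fun _ : ℂ => ∫ p, A p * conj (B p)) (sq 0 w) :=
      integrableOn_const hfin.ne
    rw [e, ← mul_sub, ← integral_sub hc0 hJi, norm_mul,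
      Complex.norm_real, Real.norm_of_nonneg (by positivity)]
    have := norm_setIntegral_le_of_norm_le_const (μ := volume) (s := sq 0 w) (C := 2 * (I * L))
      hfin s1
    rw [hvol] at this
    calc _ ≤ 1 / w ^ 2 * (2 * (I * L) * w ^ 2) := mul_le_mul_of_nonneg_left this (by positivity)
      _ = _ := by field_simp
  -- step 3
  have s3 : ((1 / w ^ 2 : ℝ) : ℂ) * ∫ y in sq 0 w, ∫ p, A (p + y) * conj (B p) =
      ∫ p, AS p * conj (B p) := by
    have e1 : ∀ y, ∫ p, A (p + y) * conj (B p) =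
        ∫ p in Metric.ball (0 : ℂ) b, A (p + y) * conj (B p) := by
      intro y
      symm
      apply setIntegral_eq_integral_of_forall_compl_eq_zero
      intro p hp
      rw [Metric.mem_ball, dist_zero_right, not_lt] at hp
      rw [hB2 p hp, map_zero, mul_zero]
    have e2 : ∫ p, AS p * conj (B p) = ∫ p in Metric.ball (0 : ℂ) b, AS p * conj (B p) := by
      symm
      apply setIntegral_eq_integral_of_forall_compl_eq_zero
      intro p hp
      rw [Metric.mem_ball, dist_zero_right, not_lt] at hp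
      rw [hB2 p hp, map_zero, mul_zero]
    rw [e2]
    simp_rw [e1, hAS]
    have : IsFiniteMeasure (volume.restrict (sq 0 w)) :=
      ⟨by rw [Measure.restrict_apply_univ]; exact hfin⟩
    have : IsFiniteMeasure (volume.restrict (Metric.ball (0 : ℂ) b)) :=
      ⟨by rw [Measure.restrict_apply_univ]; exact measure_ball_lt_top⟩
    have hm2 : Measurable (fun z : ℂ × ℂ => A (z.2 + z.1) * conj (B z.2)) :=
      (hA.comp (measurable_snd.add measurable_fst)).mul (hcm.comp measurable_snd)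
    have hsw := swapb (volume.restrict (sq 0 w)) (volume.restrict (Metric.ball (0 : ℂ) b))
      (fun z : ℂ × ℂ => A (z.2 + z.1) * conj (B z.2)) hm2 (β * β) (fun z => by
        rw [norm_mul, RCLike.norm_conj]
        exact mul_le_mul (hA1 _) (hB1 _) (norm_nonneg _) hβ)
    simp only at hsw
    rw [hsw, ← integral_const_mul]
    congr 1
    funext p
    rw [integral_mul_const]
    ring
  rw [s3] at s2
  have s4 : ‖∫ p, AS p * conj (B p)‖ ≤ β * ∫ p, ‖AS p‖ := by
    refine (norm_integral_le_integral_norm _).trans ?_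
    rw [← integral_const_mul]
    apply integral_mono _ (hASi.norm.const_mul β)
    · intro p
      simp only
      rw [norm_mul, RCLike.norm_conj, mul_comm]
      exact mul_le_mul_of_nonneg_right (hB1 _) (norm_nonneg _)
    · exact (Integrable.mul_bdd (c := β) hASi hcm.aestronglyMeasurable
          (Filter.Eventually.of_forall fun p => by
            rw [RCLike.norm_conj]; exact hB1 _)).norm
  calc ‖∫ p, A p * conj (B p)‖ = ‖((∫ p, A p * conj (B p)) - ∫ p, AS p * conj (B p)) +
        ∫ p, AS p * conj (B p)‖ := by congr 1; ring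
    _ ≤ _ := norm_add_le _ _
    _ ≤ _ := by linarith

theorem Sq_int {F : ℂ → ℂ} (hF : Measurable F) {R w : ℝ} (hw : 0 < w) (hF1 : ∀ x, ‖F x‖ ≤ 1)
    (hFR : ∀ x, R < ‖x‖ → F x = 0) : Measurable (Sq w F) ∧ Integrable (Sq w F) := by
  have hm : Measurable (Sq w F) := by
    unfold Sq
    apply Measurable.const_mul
    have : StronglyMeasurable fun q : ℂ × ℂ => F (q.1 + q.2) :=
      (hF.comp (measurable_fst.add measurable_snd)).stronglyMeasurable
    exact (this.integral_prod_right' (ν := volume.restrict (sq 0 w))).measurable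
  refine ⟨hm, (int_of_ball hm (max 0 (R + 2 * w) + 1) 1 (by positivity)
    (fun p => sq_le w hw hF1 p) (fun p hp => ?_)).1⟩
  apply sq_supp w hFR p
  have := le_max_right 0 (R + 2 * w)
  linarith

theorem per_alpha {σ : ℂ} {Q : ℝ} (P : Par σ Q) {m t₁ ℓ s u R δ w : ℝ} (hm : 0 < m) (hm1 : m ≤ 1)
    (hs : Sep Q t₁ ℓ s) (hu : Sep Q t₁ ℓ u) (hR : R ≤ Q) {F : ℂ → ℂ} (hF : Measurable F)
    (hF1 : ∀ x, ‖F x‖ ≤ 1) (hFR : ∀ x, R < ‖x‖ → F x = 0) (hδ : 0 < δ) (hsu : δ ≤ |s - u|)
    (hp : 2 / Q ≤ |s + u|) (hw : 0 < w) {α : ℂ} (hα : α ≠ 0) :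
    ‖∫ p, AA σ m t₁ ℓ α s F p * conj (AA σ m t₁ ℓ α u F p)‖ ≤
      Q ^ 8 / m ^ 8 * (∫ p, ‖Sq w F p‖) + Q ^ 61 / (m ^ 8 * δ) * (w / ‖α‖) := by
  have h0 := P.pos
  have h16 := P.hQ
  have hαn : 0 < ‖α‖ := norm_pos_iff.2 hα
  obtain ⟨hSm, hSi⟩ := Sq_int hF hw hF1 hFR
  obtain ⟨hAi, hAl⟩ := AA_l1 P hm hs α hSm hSi
  have hb : R + Q ^ 10 < Q ^ 11 := by
    have h1 := P.pow_le (show 1 ≤ 10 by norm_num)
    rw [pow_one] at h1
    have h2 : 0 < Q ^ 10 := by positivity
    have h3 : Q ^ 11 = Q ^ 10 * Q := by ring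
    rw [h3]
    have h4 := mul_le_mul_of_nonneg_left h16 h2.le
    linarith
  have hL : ∀ {t : ℝ} {y : ℂ}, y ∈ sq 0 w → |t| ≤ Q ^ 9 / δ * (‖y‖ / ‖α‖) →
      Q ^ 24 / m ^ 4 * |t| ≤ Q ^ 24 / m ^ 4 * (Q ^ 9 / δ * (2 * w / ‖α‖)) := by
    intro t y hy ht
    apply mul_le_mul_of_nonneg_left _ (by positivity)
    refine ht.trans (mul_le_mul_of_nonneg_left ?_ (by positivity))
    exact div_le_div_of_nonneg_right (sq_set_norm w y hy) hαn.le
  have key := pair_est (AA σ m t₁ ℓ α s F) (AA σ m t₁ ℓ α u F) (AA σ m t₁ ℓ α s (Sq w F))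
    (AA_meas1 σ m t₁ ℓ α s hF) (AA_meas1 σ m t₁ ℓ α u hF) (Q ^ 4 / m ^ 4) (Q ^ 11)
    (Q ^ 27 / m ^ 4) (Q ^ 24 / m ^ 4 * (Q ^ 9 / δ * (2 * w / ‖α‖))) w (by positivity)
    (by positivity) hw (by positivity) (AA_norm P hm hs α hF1) (AA_norm P hm hu α hF1)
    (fun p hp => AA_supp P hm hm1 hs α hFR p (by linarith))
    (fun p hp => AA_supp P hm hm1 hu α hFR p (by linarith))
    (by
      have : Q ^ 4 / m ^ 4 * (Real.pi * (Q ^ 11) ^ 2) = Q ^ 26 * Real.pi / m ^ 4 := by ring
      rw [this]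
      apply div_le_div_of_nonneg_right _ (by positivity)
      have e : Q ^ 27 = Q ^ 26 * Q := by ring
      rw [e]
      apply mul_le_mul_of_nonneg_left _ (by positivity)
      linarith [Real.pi_le_four])
    hAi (fun p => AA_sq P hm hs α hF hF1 hw p)
    (fun y hy => by
      obtain ⟨t, t', h1, h2, h3⟩ := basis P hs.hs hu.hs hδ hsu hp hα y
      refine ⟨t * (cc σ s * α), t' * (cc σ u * α), h1, fun p => ?_, fun p => ?_⟩
      · exact (AA_shift P hm hs α hF hF1 t p).trans (hL hy h2)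
      · have := AA_shift P hm hu α hF hF1 (-t') p
        rw [abs_neg] at this
        have e : p - t' * (cc σ u * α) = p + ((-t' : ℝ) : ℂ) * (cc σ u * α) := by
          push_cast; ring
        rw [e]
        exact this.trans (hL hy h3))
  refine key.trans (add_le_add ?_ ?_)
  · calc Q ^ 4 / m ^ 4 * (∫ p, ‖AA σ m t₁ ℓ α s (Sq w F) p‖) ≤
          Q ^ 4 / m ^ 4 * (Q ^ 4 / m ^ 4 * ∫ p, ‖Sq w F p‖) :=
          mul_le_mul_of_nonneg_left hAl (by positivity)
      _ = _ := by ring
  · have e1 : 2 * (Q ^ 27 / m ^ 4 * (Q ^ 24 / m ^ 4 * (Q ^ 9 / δ * (2 * w / ‖α‖)))) =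
        4 * Q ^ 60 / (m ^ 8 * δ) * (w / ‖α‖) := by field_simp; ring
    rw [e1]
    apply mul_le_mul_of_nonneg_right _ (by positivity)
    apply div_le_div_of_nonneg_right _ (by positivity)
    have : Q ^ 61 = Q * Q ^ 60 := by ring
    rw [this]
    apply mul_le_mul_of_nonneg_right _ (by positivity)
    linarith

end Pool.Agent.H42.Pl
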